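import Mathlib
import Pool.Graph.R_pool_sql_team_seeded_f0cf7b00.H262R3.Lk.Fn6

open Finset Filter

/-! The exceptional prime, and many primes at the scale of Linnik's theorem for all systems of forms whose
leading coefficients are prime to it. -/

namespace Pool.Agent.H536.LS

open Pool.Agent.H262R3.Lk
open Pool.Agent.H378R2 Pool.Agent.H262R2.UM Pool.Agent.H262R2.UP

/-- the exceptional modulus, which has no small prime factor or is large -/
theorem excS (hqs : St_QS) (hsw : St_SWQ) (K B : ℕ) : ∃ M0 : ℕ, ∀ M : ℕ, M0 ≤ M → ∀ q1 : ℕ, 1 < q1 →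
    (M ^ 32 < q1 ∨ ∃ χ : DirichletCharacter ℂ q1, χ.IsPrimitive ∧ χ ^ 2 = 1 ∧
      ∃ σ : ℝ, 0 < σ ∧ σ ≤ 1 ∧ ‖Lj (M ^ 32) χ 0 σ‖ < 1 / 2) →
    ∃ f1 : ℕ, (Real.log M) ^ B < f1 ∧ (M < f1 ∨ ∀ p : ℕ, p.Prime → p ∣ f1 → K + 1 < p) ∧
      ∀ a : Fin K → ℕ, (∀ i, 0 < a i ∧ a i ≤ M) → (∀ i, ¬ f1 ∣ a i) →
      ∃ T : Finset ℕ, (∀ p ∈ T, p.Prime) ∧ #T ≤ K ∧ (∀ p ∈ T, K ≤ p) ∧ ∀ i, ¬ q1 ∣ a i * WT M T := by
  obtain ⟨z0, hz0⟩ := hsw (B + 1)
  set Z0 := K + 1 with hZ0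
  set Cu : ℕ := (Z0 ^ 3) ^ (Z0 + 1) with hCu
  have hev : ∀ᶠ M : ℕ in atTop, (Cu : ℝ) + 1 ≤ Real.log M :=
    (Real.tendsto_log_atTop.comp tendsto_natCast_atTop_atTop).eventually_ge_atTop _
  obtain ⟨M2, hM2⟩ := eventually_atTop.1 hev
  refine ⟨z0 + M2 + 2, fun M hM q1 hq1 hor => ?_⟩
  have hM1 : 1 ≤ M := by omega
  have hMr : (2 : ℝ) ≤ M := by
    have : 2 ≤ M := by omega
    exact_mod_cast this
  have hlM := hM2 M (by omega)
  have hCu0 : (0 : ℝ) < Cu := by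
    have : 0 < Cu := by rw [hCu, hZ0]; positivity
    exact_mod_cast this
  have hlM0 : 0 < Real.log M := by linarith
  by_cases hlarge : M ^ 32 < q1
  · refine ⟨M + 1 + ⌈(Real.log M) ^ B⌉₊, ?_, Or.inl (by omega), ?_⟩
    · push_cast
      have := Nat.le_ceil ((Real.log M) ^ B)
      linarith
    · intro a ha _
      refine ⟨∅, ?_, ?_, ?_, ?_⟩
      · intro p hp; exact absurd hp (notMem_empty p)
      · simp
      · intro p hp; exact absurd hp (notMem_empty p)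
      · intro i hd
        have hW := WT_pos M ∅
        have h1 := Nat.le_of_dvd (Nat.mul_pos (ha i).1 hW) hd
        have h2 : a i * WT M ∅ ≤ M * M := Nat.mul_le_mul (ha i).2 (WT_le M hM1 ∅)
        have h3 : M * M ≤ M ^ 32 := by
          calc M * M = M ^ 2 := (sq M).symm
            _ ≤ M ^ 32 := Nat.pow_le_pow_right hM1 (by norm_num)
        omega
  · obtain ⟨χ, hχ, hχ2, σ, hσ, hσ1, hlt⟩ := hor.resolve_left hlarge
    have hq1large : (Real.log ((M ^ 32 : ℕ) : ℝ)) ^ (B + 1) < q1 := by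
      by_contra hcon
      push Not at hcon
      have hz : z0 ≤ M ^ 32 := by
        calc z0 ≤ M := by omega
          _ ≤ M ^ 32 := Nat.le_self_pow (by norm_num) M
      have := hz0 (M ^ 32) hz q1 hq1 hcon χ hχ σ hσ hσ1
      linarith
    have hfl := fp_large hqs q1 Z0 (by omega) (by omega) χ hχ hχ2
    have hflr : (q1 : ℝ) ≤ Cu * fp q1 Z0 := by exact_mod_cast hfl
    have hlogz : Real.log M ≤ Real.log ((M ^ 32 : ℕ) : ℝ) := by
      apply Real.log_le_log (by linarith)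
      exact_mod_cast Nat.le_self_pow (by norm_num) M
    refine ⟨fp q1 Z0, ?_, Or.inr ?_, ?_⟩
    · have h1 : (Real.log M) ^ (B + 1) < Cu * fp q1 Z0 :=
        lt_of_le_of_lt (pow_le_pow_left₀ hlM0.le hlogz _) (hq1large.trans_le hflr)
      have h2 : (Real.log M) ^ B * Cu < Cu * fp q1 Z0 := by
        refine lt_of_le_of_lt ?_ h1
        rw [pow_succ]
        apply mul_le_mul_of_nonneg_left _ (by positivity)
        linarith
      rw [mul_comm] at h2
      exact lt_of_mul_lt_mul_left h2 hCu0.le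
    · intro p hp hd
      unfold fp at hd
      obtain ⟨r, hr, hpr⟩ := (Prime.dvd_finsetProd_iff hp.prime _).1 hd
      rw [mem_filter] at hr
      have h1 := hp.dvd_of_dvd_pow hpr
      have h2 := (Nat.prime_dvd_prime_iff_eq hp (Nat.prime_of_mem_primeFactors hr.1)).1 h1
      rw [h2]
      exact hr.2
    · intro a ha hfa
      have hex : ∀ i, ∃ p : ℕ, p.Prime ∧ Z0 < p ∧ (a i).factorization p < q1.factorization p :=
        fun i => fp_exists (ha i).1.ne' (hfa i)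
      choose p hp1 hp2 hp3 using hex
      refine ⟨univ.image p, ?_, ?_, ?_, ?_⟩
      · intro r hr
        rw [mem_image] at hr
        obtain ⟨i, _, rfl⟩ := hr
        exact hp1 i
      · refine card_image_le.trans ?_
        rw [card_univ, Fintype.card_fin]
      · intro r hr
        rw [mem_image] at hr
        obtain ⟨i, _, rfl⟩ := hr
        have := hp2 i
        omega
      · intro i
        exact not_dvd_of_fact (ha i).1.ne' (mem_image_of_mem p (mem_univ i)) (hp1 i) (hp3 i)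

set_option maxHeartbeats 16000000 in
theorem evLS (m : ℕ) : ∃ K A : ℕ, ∀ B : ℕ, ∃ M0 : ℕ, ∀ M : ℕ, M0 ≤ M → ∃ f1 : ℕ, (Real.log M) ^ B < f1 ∧
    (M < f1 ∨ ∀ p : ℕ, p.Prime → p ∣ f1 → K + 1 < p) ∧
    ∀ a b : Fin K → ℕ, Adm a b → (∀ i, 0 < a i ∧ b i ≤ a i) → Function.Injective (fun i => (a i, b i)) →
      (∀ i, a i ≤ M) → (∀ i, ¬ f1 ∣ a i) →
      ∃ n : ℕ, (n : ℝ) ≤ 8 * (M : ℝ) ^ A ∧ m ≤ #((univ : Finset (Fin K)).filter (fun i => (a i * n + b i).Prime)) := by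
  obtain ⟨c1, δ0, hc1, hδ0, hδ01, hlow⟩ := h_low2
  obtain ⟨δ, c, hδ, hδ1, hc, hcomb⟩ := h_comb c1 hc1
  obtain ⟨η, R, c', hη, hηR, hc', hwin⟩ := h_win c hc
  obtain ⟨c5, hc5, hsel⟩ := h_sel η R c' hη hηR hc'
  obtain ⟨K0, A1, hst⟩ := stage2 c5 hc5 m
  set K : ℕ := ⌈((K0 : ℝ) + 1) / c5⌉₊ with hK
  obtain ⟨κ, hκdef⟩ : ∃ κ : ℝ, κ = min (η / (16 * ((A1 : ℝ) + 1))) (min (δ / 32) (min (δ0 / 32) (η / 128))) := ⟨_, rfl⟩
  have hA1p : (0 : ℝ) < 16 * ((A1 : ℝ) + 1) := by positivity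
  have hκ0 : 0 < κ := by
    rw [hκdef]
    exact lt_min (by positivity) (lt_min (by positivity) (lt_min (by positivity) (by positivity)))
  have hκ1 : κ ≤ η / (16 * ((A1 : ℝ) + 1)) := by rw [hκdef]; exact min_le_left _ _
  have hκ2 : κ ≤ δ / 32 := by rw [hκdef]; exact (min_le_right _ _).trans (min_le_left _ _)
  have hκ3 : κ ≤ δ0 / 32 := by
    rw [hκdef]; exact (min_le_right _ _).trans ((min_le_right _ _).trans (min_le_left _ _))
  have hκ4 : κ ≤ η / 128 := by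
    rw [hκdef]; exact (min_le_right _ _).trans ((min_le_right _ _).trans (min_le_right _ _))
  have hR0 : 0 < R := hη.trans hηR
  set A2 : ℕ := ⌈R / (8 * κ)⌉₊ with hA2
  have hA2r : R / (8 * κ) ≤ A2 := Nat.le_ceil _
  obtain ⟨M1, hst2⟩ := hst A2
  refine ⟨K, 4 * A2, fun B => ?_⟩
  obtain ⟨M2, hexc⟩ := excS h_qs h_swq K B
  refine ⟨M1 + M2 + 3, fun M hM => ?_⟩
  have hM3 : 3 ≤ M := by omega
  have hMr : (3 : ℝ) ≤ M := by exact_mod_cast hM3
  have hM0 : (0 : ℝ) < M := by linarith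
  have hL1 : 1 ≤ Real.log M := by
    rw [Real.le_log_iff_exp_le hM0]
    have := Real.exp_one_lt_d9
    linarith
  have hL0 : 0 < Real.log M := by linarith
  set z : ℕ := M ^ 32 with hz
  have hz32 : 32 ≤ z := by
    calc 32 ≤ 3 ^ 32 := by norm_num
      _ ≤ M ^ 32 := Nat.pow_le_pow_left hM3 32
  have hlogz : Real.log (z : ℝ) = 32 * Real.log M := by
    rw [hz]; push_cast; rw [Real.log_pow]; norm_num
  obtain ⟨q1, hq1, hor, hchar⟩ := hlow z hz32
  obtain ⟨f1, hf1, hf1K, hf1T⟩ := hexc M (by omega) q1 hq1 hor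
  refine ⟨f1, hf1, hf1K, fun a b hadm hab hinj haM hfa => ?_⟩
  have hapos : ∀ i, 0 < a i := fun i => (hab i).1
  obtain ⟨T, hTp, hTc, hTK, hq1T⟩ := hf1T a (fun i => ⟨hapos i, haM i⟩) hfa
  set W := WT M T with hW
  have hWpos : 0 < W := WT_pos M T
  have hWM : W ≤ M := WT_le M (by omega) T
  obtain ⟨a0, ha0⟩ := crt_class hadm (Pz (wM M) \ T) (fun p hp => (mem_Pz.1 (Finset.mem_sdiff.1 hp).1).2)
  have hcop : ∀ i, (a i * a0 + b i).Coprime (a i * W) := fun i =>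
    coprime_self_mul (adm_coprime hadm i) (ha0 i)
  have hqle : ∀ i, a i * W ≤ M ^ 2 := fun i => by
    calc a i * W ≤ M * M := Nat.mul_le_mul (haM i) hWM
      _ = M ^ 2 := by ring
  have hq1' : ∀ i, 1 ≤ a i * W := fun i => Nat.mul_pos (hapos i) hWpos
  have hq16 : ∀ i, (a i * W) ^ 16 ≤ z := fun i => by
    calc (a i * W) ^ 16 ≤ (M ^ 2) ^ 16 := Nat.pow_le_pow_left (hqle i) 16
      _ = z := by rw [hz, ← pow_mul]
  have hq8 : ∀ i, (a i * W) ^ 8 ≤ z := fun i =>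
    (Nat.pow_le_pow_right (hq1' i) (by norm_num)).trans (hq16 i)
  obtain ⟨σ, hσdef⟩ : ∃ σ : ℝ, σ = κ / Real.log M := ⟨_, rfl⟩
  have hσ0 : 0 < σ := by rw [hσdef]; positivity
  have hσz : σ * Real.log (z : ℝ) = 32 * κ := by
    rw [hlogz, hσdef]
    field_simp
  have hσδ : σ * Real.log (z : ℝ) ≤ δ := by rw [hσz]; linarith
  have hσδ0 : σ * Real.log (z : ℝ) ≤ δ0 := by rw [hσz]; linarith
  have hση : σ * Real.log (z : ℝ) ≤ η / 4 := by rw [hσz]; linarith
  have hσs : ∀ i, σ * (sh (a i) : ℝ) ≤ η / 2 := by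
    intro i
    have har : (1 : ℝ) ≤ a i := by exact_mod_cast hapos i
    have hlog : 0 ≤ Real.log (a i) := Real.log_nonneg har
    have h1 : (sh (a i) : ℝ) < 2 * Real.log (a i) + 1 := Nat.ceil_lt_add_one (by positivity)
    have h2 : Real.log (a i) ≤ Real.log M := Real.log_le_log (by linarith) (by exact_mod_cast haM i)
    have h3 : (sh (a i) : ℝ) ≤ 3 * Real.log M := by linarith
    calc σ * (sh (a i) : ℝ) ≤ σ * (3 * Real.log M) := mul_le_mul_of_nonneg_left h3 hσ0.le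
      _ = 3 * κ := by rw [hσdef]; field_simp
      _ ≤ η / 2 := by linarith
  have hwins : ∀ i, c' / ((a i * W).totient * σ ^ 3) ≤
      ∑ k ∈ Icc ⌈η / σ⌉₊ ⌊R / σ⌋₊, (k : ℝ) ^ 2 * Real.exp (-(σ * k / 2)) * wn (a i * W) (a i * a0 + b i) k := by
    intro i
    apply hwin z (a i * W) (a i * a0 + b i) σ hz32 (hq1' i) (hq8 i) (hcop i) hσ0 hση
    apply hcomb z (a i * W) (a i * a0 + b i) σ hz32 (hq1' i) (hq8 i) (hcop i) hσ0 hσδ
    intro χ hχ
    exact hchar (a i * W) (hq1' i) (hq16 i) (hq1T i) χ hχ σ hσ0 hσδ0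
  obtain ⟨l, hl1, hl2, hcard⟩ := hsel K z σ (fun i => a i * W) (fun i => a i * a0 + b i) (fun i => sh (a i)) hz32
    (fun i => ⟨hq1' i, hq8 i, hcop i⟩) hσ0 hση hσs hwins
  have hKr : ((K0 : ℝ) + 1) / c5 ≤ K := Nat.le_ceil _
  rw [div_le_iff₀ hc5] at hKr
  have hcard2 : K0 + 1 ≤ #((univ : Finset (Fin K)).filter (fun i => c5 / ((a i * W).totient : ℝ) ≤
      wn (a i * W) (a i * a0 + b i) (l + sh (a i)))) := by
    have h1 : ((K0 + 1 : ℕ) : ℝ) ≤ #((univ : Finset (Fin K)).filter (fun i => c5 / ((a i * W).totient : ℝ) ≤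
      wn (a i * W) (a i * a0 + b i) (l + sh (a i)))) := by
      push_cast
      linarith
    exact_mod_cast h1
  obtain ⟨e, he, heI⟩ := sub_emb _ hcard2
  have hlX1 : (M : ℝ) ^ (4 * A1) ≤ Real.exp ((l : ℝ) / 2) := by
    have h1 : (M : ℝ) ^ (4 * A1) = Real.exp ((4 * A1 : ℝ) * Real.log M) := by
      rw [← Real.rpow_natCast, Real.rpow_def_of_pos hM0]
      push_cast
      ring_nf
    rw [h1]
    apply Real.exp_le_exp.2
    have h2 : η / (2 * σ) = η / (2 * κ) * Real.log M := by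
      rw [hσdef]; field_simp
    rw [h2] at hl1
    have h3 : 16 * ((A1 : ℝ) + 1) * κ ≤ η := by
      rw [le_div_iff₀ hA1p] at hκ1
      linarith
    have h4 : 8 * ((A1 : ℝ) + 1) ≤ η / (2 * κ) := by
      rw [le_div_iff₀ (by positivity)]
      linarith
    have h5 : 8 * ((A1 : ℝ) + 1) * Real.log M ≤ l :=
      (mul_le_mul_of_nonneg_right h4 hL0.le).trans hl1
    nlinarith
  have hlX2 : Real.exp ((l : ℝ) / 2) ≤ (M : ℝ) ^ (4 * A2) := by
    have h1 : (M : ℝ) ^ (4 * A2) = Real.exp ((4 * A2 : ℝ) * Real.log M) := by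
      rw [← Real.rpow_natCast, Real.rpow_def_of_pos hM0]
      push_cast
      ring_nf
    rw [h1]
    apply Real.exp_le_exp.2
    have h2 : R / σ = 8 * (R / (8 * κ)) * Real.log M := by
      rw [hσdef]; field_simp
    rw [h2] at hl2
    have h5 : 8 * (R / (8 * κ)) * Real.log M ≤ 8 * A2 * Real.log M := by gcongr
    linarith
  obtain ⟨n, hn, hm⟩ := hst2 M (by omega) K l a0 T (fun j => a (e j)) (fun j => b (e j)) hTp hTc hTK
    (fun p hp => by
      obtain ⟨n, hn⟩ := hadm p hp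
      exact ⟨n, fun j => hn (e j)⟩)
    (fun j => hab (e j)) (fun x y hxy => he (hinj hxy)) (fun j => haM (e j)) hlX1 hlX2 (fun j => hcop (e j))
    (fun j => (mem_filter.1 (heI j)).2)
  refine ⟨n, ?_, ?_⟩
  · refine hn.trans ?_
    exact mul_le_mul_of_nonneg_left hlX2 (by norm_num)
  · refine hm.trans ?_
    have h1 : ((univ : Finset (Fin (K0 + 1))).filter (fun j => (a (e j) * n + b (e j)).Prime)).image e ⊆
        (univ : Finset (Fin K)).filter (fun i => (a i * n + b i).Prime) := by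
      intro i hi
      rw [mem_image] at hi
      obtain ⟨j, hj, rfl⟩ := hi
      rw [mem_filter] at hj ⊢
      exact ⟨mem_univ _, hj.2⟩
    have h2 := card_le_card h1
    rwa [card_image_of_injective _ he] at h2

/-- many primes at the scale of Linnik's theorem, for all forms whose leading coefficients are prime to
one exceptional prime `P` -/
theorem evP (m : ℕ) : ∃ K A M0 : ℕ, ∀ M : ℕ, M0 ≤ M → ∃ P : ℕ, P.Prime ∧ K + 1 < P ∧
    ∀ a b : Fin K → ℕ, Adm a b → (∀ i, 0 < a i ∧ b i ≤ a i) → Function.Injective (fun i => (a i, b i)) →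
      (∀ i, a i ≤ M) → (∀ i, ¬ P ∣ a i) →
      ∃ n : ℕ, (n : ℝ) ≤ 8 * (M : ℝ) ^ A ∧ m ≤ #((univ : Finset (Fin K)).filter (fun i => (a i * n + b i).Prime)) := by
  obtain ⟨K, A, h⟩ := evLS m
  obtain ⟨M0, hM0⟩ := h 0
  refine ⟨K, A, M0, fun M hM => ?_⟩
  obtain ⟨f1, hf1, hor, hF⟩ := hM0 M hM
  rw [pow_zero] at hf1
  have hf1' : 1 < f1 := by exact_mod_cast hf1
  rcases hor with hlt | hK
  · obtain ⟨P, hP1, hP2⟩ := Nat.exists_infinite_primes (K + 2)
    refine ⟨P, hP2, by omega, ?_⟩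
    intro a b hadm hab hinj haM _
    exact hF a b hadm hab hinj haM (fun i hd => by
      have h1 := Nat.le_of_dvd (hab i).1 hd
      have h2 := haM i
      omega)
  · obtain ⟨P, hP1, hP2⟩ := Nat.exists_prime_and_dvd (n := f1) (by omega)
    refine ⟨P, hP1, hK P hP1 hP2, ?_⟩
    intro a b hadm hab hinj haM hPa
    exact hF a b hadm hab hinj haM (fun i hd => hPa i (hP2.trans hd))

end Pool.Agent.H536.LS
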