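import Mathlib
import Pool.Graph.R_pool_sql_team_b88adf34.H16.Bang

open Finset Filter

/-! Primes for which the order of `2` is a given multiple of `4`, and a supply of small primes. -/

namespace Pool.Agent.H536.LS

theorem exists_ord (k : ℕ) (hk : 1 ≤ k) :
    ∃ q : ℕ, q.Prime ∧ orderOf (2 : ZMod q) = 4 * k ∧ q < 2 ^ (4 * k) := by
  obtain ⟨q, hq, hprim⟩ := Pool.Agent.H16.Bang.exists_prim k hk
  have : Fact q.Prime := ⟨hq⟩
  have h4 : orderOf (4 : ZMod q) = 2 * k := hprim.eq_orderOf.symm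
  have h42 : (4 : ZMod q) = 2 ^ 2 := by norm_num
  have hpow : (2 : ZMod q) ^ (4 * k) = 1 := by
    have h1 := hprim.pow_eq_one
    rw [h42, ← pow_mul] at h1
    rw [← h1]; congr 1; ring
  have hpos : 0 < orderOf (2 : ZMod q) := orderOf_pos_iff.2 (isOfFinOrder_iff_pow_eq_one.2 ⟨4 * k, by omega, hpow⟩)
  have h5 : orderOf ((2 : ZMod q) ^ 2) = orderOf (2 : ZMod q) / (orderOf (2 : ZMod q)).gcd 2 :=
    orderOf_pow' (2 : ZMod q) (by norm_num)
  rw [← h42, h4] at h5
  have hord : orderOf (2 : ZMod q) = 4 * k := by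
    rcases Nat.even_or_odd (orderOf (2 : ZMod q)) with he | ho
    · have hg : (orderOf (2 : ZMod q)).gcd 2 = 2 := Nat.gcd_eq_right he.two_dvd
      rw [hg] at h5
      obtain ⟨t, ht⟩ := he
      omega
    · have hg : (orderOf (2 : ZMod q)).gcd 2 = 1 := by
        exact Nat.coprime_two_right.2 ho
      rw [hg, Nat.div_one] at h5
      rw [← h5] at ho
      exact absurd ho (by rw [Nat.not_odd_iff_even]; exact even_two_mul k)
  refine ⟨q, hq, hord, ?_⟩
  have hd : q ∣ 2 ^ (4 * k) - 1 := by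
    rw [← ZMod.natCast_eq_zero_iff, Nat.cast_sub Nat.one_le_two_pow]
    push_cast
    rw [hpow, sub_self]
  have h6 : 0 < 2 ^ (4 * k) - 1 := by
    have : 2 ^ 1 ≤ 2 ^ (4 * k) := Nat.pow_le_pow_right (by norm_num) (by omega)
    omega
  have h7 := Nat.le_of_dvd h6 hd
  omega

/-- a prime outside a given small set -/
theorem prime_supply (B : ℕ) (hB : 8 ≤ B) (S : Finset ℕ) (hS : S.card ≤ B) :
    ∃ q : ℕ, q.Prime ∧ q ∉ S ∧ q ≤ B ^ 4 := by
  by_contra hcon
  push Not at hcon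
  have h1 : (Nat.primesLE (B ^ 4)) ⊆ S := by
    intro p hp
    by_contra hpS
    have h2 := Nat.mem_primesLE.1 hp
    have := hcon p h2.2 hpS
    omega
  have h2 := (Finset.card_le_card h1).trans hS
  rw [Nat.primesLE_card_eq_primeCounting] at h2
  have h3 : ((Nat.primeCounting (B ^ 4) : ℕ) : ℝ) ≤ B := by exact_mod_cast h2
  have h4 := Chebyshev.pi_ge (B ^ 4)
  have hBr : (8 : ℝ) ≤ B := by exact_mod_cast hB
  have hlogB : Real.log B ≤ B - 1 := Real.log_le_sub_one_of_pos (by linarith)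
  have hlogB0 : 0 < Real.log B := Real.log_pos (by linarith)
  have hlog4 : Real.log ((B ^ 4 : ℕ) : ℝ) = 4 * Real.log B := by
    push_cast; rw [Real.log_pow]; norm_num
  have hB4 : (4096 : ℝ) ≤ (B : ℝ) ^ 4 := by
    calc (4096 : ℝ) = 8 ^ 4 := by norm_num
      _ ≤ (B : ℝ) ^ 4 := pow_le_pow_left₀ (by norm_num) hBr 4
  have hlog5 : Real.log (((B ^ 4 : ℕ) : ℝ) + 1) ≤ 1 + 4 * Real.log B := by
    have h5 : ((B ^ 4 : ℕ) : ℝ) + 1 ≤ 2 * (B : ℝ) ^ 4 := by push_cast; linarith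
    calc Real.log (((B ^ 4 : ℕ) : ℝ) + 1) ≤ Real.log (2 * (B : ℝ) ^ 4) :=
          Real.log_le_log (by positivity) h5
      _ = Real.log 2 + 4 * Real.log B := by
          rw [Real.log_mul (by norm_num) (by positivity), Real.log_pow]; norm_num
      _ ≤ _ := by have := Real.log_two_lt_d9; linarith
  have h6 : ((B ^ 4 : ℕ) : ℝ) * Real.log 2 - Real.log (((B ^ 4 : ℕ) : ℝ) + 1) ≤ B * (4 * Real.log B) := by
    have h7 := h4.trans h3
    rw [hlog4, div_le_iff₀ (by positivity)] at h7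
    exact h7
  have hl2 := Real.log_two_gt_d9
  push_cast at h6 hlog5
  have h8 : (B : ℝ) ^ 4 * (1 / 2) ≤ (B : ℝ) ^ 4 * Real.log 2 := by
    apply mul_le_mul_of_nonneg_left _ (by positivity); linarith
  have h9 : (B : ℝ) ^ 4 * (1 / 2) ≤ 4 * B * B + 4 * B := by
    nlinarith
  have h10 : (B : ℝ) ^ 4 = (B * B) * (B * B) := by ring
  have h11 : (64 : ℝ) ≤ B * B := by nlinarith
  rw [h10] at h9
  nlinarith

end Pool.Agent.H536.LS
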