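import Mathlib
import Pool.Agent.H536.LS.Ord

open Finset Filter

/-! Residue classes for which all the positions outside a given bounded set of positions of both kinds of
Cunningham sequences are divisible by small primes. -/

namespace Pool.Agent.H536.LS

/-- the sign of a kind: `true` stands for the first kind -/
def sg (b : Bool) : ℤ := if b then 1 else -1

theorem sg_cases (b : Bool) : sg b = 1 ∨ sg b = -1 := by
  unfold sg; split <;> simp

/-- the number at a position: `2 ^ j * n - 1` for the first kind and `2 ^ j * n + 1` for the second -/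
def vl (u : ℕ × Bool) (n : ℤ) : ℤ := 2 ^ u.1 * n - sg u.2

structure Gd (E : Finset (ℕ × Bool)) (P V n0 : ℕ) : Prop where
  pos : 0 < V
  odd : ¬ 2 ∣ V
  nP : ¬ P ∣ V
  prot : ∀ q : ℕ, q.Prime → q ∣ V → ∀ e ∈ E, ¬ (q : ℤ) ∣ vl e n0

open Classical in
/-- the positions that are not yet killed -/
noncomputable def lo (U : Finset (ℕ × Bool)) (V n0 : ℕ) : Finset (ℕ × Bool) :=
  U.filter (fun u => ∀ q : ℕ, q.Prime → q ∣ V → ¬ (q : ℤ) ∣ vl u n0)

theorem vl_congr {N q n n' : ℕ} (h : n ≡ n' [MOD N]) (hq : q ∣ N) (u : ℕ × Bool) :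
    (q : ℤ) ∣ vl u n ↔ (q : ℤ) ∣ vl u n' := by
  have h1 : (N : ℤ) ∣ (n' : ℤ) - n := (Nat.modEq_iff_dvd).1 h
  have h2 : (q : ℤ) ∣ (n' : ℤ) - n := (Int.natCast_dvd_natCast.2 hq).trans h1
  have h3 : (q : ℤ) ∣ vl u n' - vl u n := by
    have : vl u n' - vl u n = 2 ^ u.1 * ((n' : ℤ) - n) := by unfold vl; ring
    rw [this]
    exact h2.mul_left _
  constructor
  · intro h4
    have := dvd_add h3 h4
    simpa using this
  · intro h4
    have := dvd_sub h4 h3
    simpa using this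

theorem step {E U : Finset (ℕ × Bool)} {P V n0 : ℕ} (hG : Gd E P V n0) (hP : P.Prime) {q : ℕ} (hq : q.Prime)
    (hqV : ¬ q ∣ V) (hq2 : q ≠ 2) (hqP : q ≠ P) (ρ : ℕ) (hρ : ∀ e ∈ E, ¬ (q : ℤ) ∣ vl e ρ) :
    ∃ n1 : ℕ, Gd E P (V * q) n1 ∧ ∀ u, u ∈ lo U (V * q) n1 ↔ u ∈ lo U V n0 ∧ ¬ (q : ℤ) ∣ vl u ρ := by
  classical
  have hco : V.Coprime q := ((Nat.Prime.coprime_iff_not_dvd hq).2 hqV).symm
  obtain ⟨n1, h1, h2⟩ := Nat.chineseRemainder hco n0 ρ
  refine ⟨n1, ⟨Nat.mul_pos hG.pos hq.pos, ?_, ?_, ?_⟩, ?_⟩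
  · intro hd
    rcases (Nat.Prime.dvd_mul Nat.prime_two).1 hd with h | h
    · exact hG.odd h
    · exact hq2 ((Nat.prime_dvd_prime_iff_eq Nat.prime_two hq).1 h).symm
  · intro hd
    rcases (Nat.Prime.dvd_mul hP).1 hd with h | h
    · exact hG.nP h
    · exact hqP ((Nat.prime_dvd_prime_iff_eq hP hq).1 h).symm
  · intro r hr hrd e he
    rcases (Nat.Prime.dvd_mul hr).1 hrd with h | h
    · rw [vl_congr h1 h]
      exact hG.prot r hr h e he
    · have hrq := (Nat.prime_dvd_prime_iff_eq hr hq).1 h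
      subst hrq
      rw [vl_congr h2 (dvd_refl _)]
      exact hρ e he
  · intro u
    unfold lo
    rw [mem_filter, mem_filter]
    constructor
    · rintro ⟨hu, hall⟩
      refine ⟨⟨hu, ?_⟩, ?_⟩
      · intro r hr hrd
        rw [← vl_congr h1 hrd]
        exact hall r hr (hrd.mul_right _)
      · rw [← vl_congr h2 (dvd_refl _)]
        exact hall q hq (dvd_mul_left _ _)
    · rintro ⟨⟨hu, hall⟩, hq'⟩
      refine ⟨hu, ?_⟩
      intro r hr hrd
      rcases (Nat.Prime.dvd_mul hr).1 hrd with h | h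
      · rw [vl_congr h1 h]
        exact hall r hr h
      · have hrq := (Nat.prime_dvd_prime_iff_eq hr hq).1 h
        subst hrq
        rw [vl_congr h2 (dvd_refl _)]
        exact hq'

/-- the class of a position modulo `4 k` -/
def ph (k : ℕ) (u : ℕ × Bool) : ℕ := (u.1 + if u.2 then 0 else 2 * k) % (4 * k)

theorem mod_shift {N j c : ℕ} (hc : c < N) : N ∣ j + (N - c) ↔ j % N = c := by
  have h1 : N ∣ j + (N - c) ↔ (N : ℤ) ∣ (j : ℤ) - c := by
    have e : ((j + (N - c) : ℕ) : ℤ) = (j - c) + N := by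
      rw [Nat.cast_add, Nat.cast_sub hc.le]; ring
    rw [← Int.natCast_dvd_natCast, e, dvd_add_self_right]
  rw [h1, ← Nat.modEq_iff_dvd]
  unfold Nat.ModEq
  rw [Nat.mod_eq_of_lt hc]
  exact eq_comm

theorem kill_iff {q k : ℕ} (hq : q.Prime) (ho : orderOf (2 : ZMod q) = 4 * k) (hk : 1 ≤ k) (c : ℕ)
    (hc : c < 4 * k) : ∃ ρ : ℕ, ∀ u : ℕ × Bool, (q : ℤ) ∣ vl u ρ ↔ ph k u = c := by
  have : Fact q.Prime := ⟨hq⟩
  refine ⟨((2 : ZMod q) ^ (4 * k - c)).val, fun u => ?_⟩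
  have hm1 : (2 : ZMod q) ^ (2 * k) = -1 := by
    have h1 : (2 : ZMod q) ^ (2 * k) * (2 : ZMod q) ^ (2 * k) = 1 := by
      rw [← pow_add, show 2 * k + 2 * k = 4 * k by ring, ← ho, pow_orderOf_eq_one]
    rcases mul_self_eq_one_iff.1 h1 with h | h
    · exfalso
      have h2 := orderOf_dvd_of_pow_eq_one h
      rw [ho] at h2
      have := Nat.le_of_dvd (by omega) h2
      omega
    · exact h
  rw [← ZMod.intCast_zmod_eq_zero_iff_dvd]
  unfold vl
  push_cast
  rw [ZMod.natCast_zmod_val, ← pow_add]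
  unfold ph
  by_cases hu : u.2 = true
  · rw [hu]
    unfold sg
    simp only [if_true, Int.cast_one, add_zero]
    rw [sub_eq_zero, ← orderOf_dvd_iff_pow_eq_one, ho, mod_shift hc]
  · rw [Bool.not_eq_true] at hu
    rw [hu]
    unfold sg
    simp only [Bool.false_eq_true, if_false, Int.cast_neg, Int.cast_one]
    rw [sub_eq_zero]
    have h3 : (2 : ZMod q) ^ (u.1 + (4 * k - c)) = -1 ↔ (2 : ZMod q) ^ (u.1 + 2 * k + (4 * k - c)) = 1 := by
      have h4 : (2 : ZMod q) ^ (u.1 + 2 * k + (4 * k - c)) = -(2 : ZMod q) ^ (u.1 + (4 * k - c)) := by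
        rw [show u.1 + 2 * k + (4 * k - c) = (u.1 + (4 * k - c)) + 2 * k by ring, pow_add, hm1]
        ring
      rw [h4]
      constructor
      · intro h; rw [h]; ring
      · intro h; rw [← h]; ring
    rw [h3, ← orderOf_dvd_iff_pow_eq_one, ho, mod_shift hc]

theorem ph_lt {k : ℕ} (hk : 1 ≤ k) (u : ℕ × Bool) : ph k u < 4 * k := Nat.mod_lt _ (by omega)

theorem lo_one (U : Finset (ℕ × Bool)) (n : ℕ) : lo U 1 n = U := by
  classical
  unfold lo
  apply Finset.filter_true_of_mem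
  intro u _ q hq hd
  exact absurd (Nat.dvd_one.1 hd) hq.one_lt.ne'

theorem lo_sub (U : Finset (ℕ × Bool)) (V n : ℕ) : lo U V n ⊆ U := by
  classical
  unfold lo
  exact filter_subset _ _

/-- one greedy step -/
theorem greedy_step {E U : Finset (ℕ × Bool)} {P V n0 : ℕ} (hG : Gd E P V n0) (hP : P.Prime) {q k : ℕ}
    (hq : q.Prime) (hqV : ¬ q ∣ V) (hqP : q ≠ P) (ho : orderOf (2 : ZMod q) = 4 * k) (hk : 1 ≤ k) {b : ℕ}
    (hb : #(U.filter (fun u => ph k u ∈ E.image (ph k))) ≤ b) (hr : 2 * b < #(lo U V n0)) :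
    ∃ n1 : ℕ, Gd E P (V * q) n1 ∧ (#(lo U (V * q) n1) : ℝ) ≤ #(lo U V n0) * (1 - 1 / (8 * k)) := by
  classical
  set L := lo U V n0 with hL
  set G := L.filter (fun u => ph k u ∉ E.image (ph k)) with hG'
  have hGcard : #L ≤ 2 * #G := by
    have h1 : #(L.filter (fun u => ph k u ∈ E.image (ph k))) ≤ b :=
      (card_le_card (filter_subset_filter _ (lo_sub U V n0))).trans hb
    have h2 := card_filter_add_card_filter_not (s := L) (fun u => ph k u ∈ E.image (ph k))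
    have h3 : #G = #(L.filter (fun u => ¬ ph k u ∈ E.image (ph k))) := rfl
    omega
  -- the best class
  obtain ⟨c, hc, hcard⟩ : ∃ c ∈ range (4 * k), #L ≤ 8 * k * #(G.filter (fun u => ph k u = c)) := by
    by_contra hcon
    push Not at hcon
    have h1 : #G = ∑ c ∈ range (4 * k), #(G.filter (fun u => ph k u = c)) :=
      card_eq_sum_card_fiberwise (fun u _ => mem_coe.2 (mem_range.2 (ph_lt hk u)))
    have h2 : 8 * k * #G < 4 * k * #L := by
      rw [h1, mul_sum]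
      calc ∑ c ∈ range (4 * k), 8 * k * #(G.filter (fun u => ph k u = c)) < ∑ c ∈ range (4 * k), #L := by
            apply sum_lt_sum_of_nonempty
            · exact ⟨0, mem_range.2 (by omega)⟩
            · intro c hc
              exact hcon c hc
        _ = 4 * k * #L := by rw [sum_const, card_range, smul_eq_mul]
    have h3 : 4 * k * #L ≤ 4 * k * (2 * #G) := Nat.mul_le_mul_left _ hGcard
    have h4 : 4 * k * (2 * #G) = 8 * k * #G := by ring
    omega
  rw [mem_range] at hc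
  have hL0 : 0 < #L := by omega
  have hfib : 0 < #(G.filter (fun u => ph k u = c)) := by
    rcases Nat.eq_zero_or_pos #(G.filter (fun u => ph k u = c)) with h | h
    · rw [h, mul_zero] at hcard
      omega
    · exact h
  obtain ⟨w, hw⟩ := card_pos.1 hfib
  rw [mem_filter, hG', mem_filter] at hw
  obtain ⟨ρ, hρ⟩ := kill_iff hq ho hk c hc
  have hq2 : q ≠ 2 := by
    rintro rfl
    have h2 : (2 : ZMod 2) = 0 := by decide
    rw [h2, orderOf_zero] at ho
    omega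
  obtain ⟨n1, hn1, hlo⟩ := step (U := U) hG hP hq hqV hq2 hqP ρ (by
    intro e he hd
    rw [hρ e] at hd
    apply hw.1.2
    rw [hw.2, ← hd]
    exact mem_image_of_mem _ he)
  refine ⟨n1, hn1, ?_⟩
  have hlo' : lo U (V * q) n1 = L.filter (fun u => ¬ ph k u = c) := by
    ext u
    rw [hlo, mem_filter, hρ]
  rw [hlo']
  have h5 := card_filter_add_card_filter_not (s := L) (fun u => ph k u = c)
  have h6 : #(G.filter (fun u => ph k u = c)) ≤ #(L.filter (fun u => ph k u = c)) :=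
    card_le_card (filter_subset_filter _ (filter_subset _ _))
  have h7 : (#L : ℝ) ≤ 8 * k * #(L.filter (fun u => ph k u = c)) := by
    have h8 := hcard.trans (Nat.mul_le_mul_left (8 * k) h6)
    exact_mod_cast h8
  have h8 : (#(L.filter (fun u => ph k u = c)) : ℝ) + #(L.filter (fun u => ¬ ph k u = c)) = #L := by
    exact_mod_cast h5
  have hkr : (0 : ℝ) < 8 * k := by
    have : (0 : ℝ) < k := by exact_mod_cast hk
    linarith
  have h9 : (#L : ℝ) / (8 * k) ≤ #(L.filter (fun u => ph k u = c)) := by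
    rw [div_le_iff₀ hkr]
    linarith
  have h10 : (#L : ℝ) * (1 - 1 / (8 * k)) = #L - #L / (8 * k) := by ring
  rw [h10]
  linarith

theorem pot {r r' : ℝ} {k : ℕ} (hk : 1 ≤ k) (hr' : 0 ≤ r') (h : r' ≤ r * (1 - 1 / (8 * k))) :
    r' ^ 8 * ((k : ℝ) + 1) ≤ r ^ 8 * k := by
  have hk0 : (0 : ℝ) < k := by exact_mod_cast hk
  have hk1 : (1 : ℝ) ≤ k := by exact_mod_cast hk
  set x : ℝ := 1 / (8 * k) with hx
  have hx0 : 0 < x := by positivity
  have hx1 : x ≤ 1 / 8 := by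
    rw [hx]
    apply one_div_le_one_div_of_le (by norm_num)
    linarith
  have hkx : 8 * x * k = 1 := by
    rw [hx]; field_simp
  have h1 : r' ^ 8 ≤ (r * (1 - x)) ^ 8 := pow_le_pow_left₀ hr' h 8
  have h2 : (1 - x) ^ 8 * (1 + 8 * x) ≤ 1 := by
    have h3 : 1 + 8 * x ≤ (1 + x) ^ 8 := by
      have := one_add_mul_le_pow (a := x) (by linarith) 8
      push_cast at this
      linarith
    calc (1 - x) ^ 8 * (1 + 8 * x) ≤ (1 - x) ^ 8 * (1 + x) ^ 8 :=
          mul_le_mul_of_nonneg_left h3 (by positivity)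
      _ = (1 - x ^ 2) ^ 8 := by ring
      _ ≤ 1 := pow_le_one₀ (by nlinarith) (by nlinarith)
  have h4 : (k : ℝ) + 1 = k * (1 + 8 * x) := by
    have : k * (1 + 8 * x) = k + 8 * x * k := by ring
    rw [this, hkx]
  have hr8 : 0 ≤ r ^ 8 := by positivity
  calc r' ^ 8 * ((k : ℝ) + 1) ≤ (r * (1 - x)) ^ 8 * ((k : ℝ) + 1) :=
        mul_le_mul_of_nonneg_right h1 (by positivity)
    _ = (r ^ 8 * k) * ((1 - x) ^ 8 * (1 + 8 * x)) := by rw [h4]; ring
    _ ≤ (r ^ 8 * k) * 1 := mul_le_mul_of_nonneg_left h2 (by positivity)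
    _ = r ^ 8 * k := mul_one _

/-- the greedy stage -/
theorem stage1 {E U : Finset (ℕ × Bool)} {P : ℕ} (hP : P.Prime) {Y0 b : ℕ} (hY0 : 1 ≤ Y0)
    (hb : ∀ k, Y0 ≤ k → #(U.filter (fun u => ph k u ∈ E.image (ph k))) ≤ b) (Y : ℕ) (hY : Y0 ≤ Y) :
    ∃ V n0 : ℕ, Gd E P V n0 ∧ V ≤ 2 ^ (2 * Y ^ 2) ∧
      (∀ q : ℕ, q.Prime → q ∣ V → ∃ k, Y0 ≤ k ∧ k < Y ∧ orderOf (2 : ZMod q) = 4 * k) ∧
      (#(lo U V n0) ≤ 2 * b ∨ (#(lo U V n0) : ℝ) ^ 8 * Y ≤ (#U : ℝ) ^ 8 * Y0 ∨
        ((#(lo U V n0) : ℝ) ^ 8 * Y ≤ 2 * ((#U : ℝ) ^ 8 * Y0) ∧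
          ∃ k, Y0 ≤ k ∧ k < Y ∧ orderOf (2 : ZMod P) = 4 * k)) := by
  classical
  induction Y, hY using Nat.le_induction with
  | base =>
    refine ⟨1, 0, ⟨one_pos, by norm_num, ?_, ?_⟩, Nat.one_le_two_pow, ?_, ?_⟩
    · intro h; exact hP.one_lt.ne' (Nat.dvd_one.1 h)
    · intro q hq hd; exact absurd (Nat.dvd_one.1 hd) hq.one_lt.ne'
    · intro q hq hd; exact absurd (Nat.dvd_one.1 hd) hq.one_lt.ne'
    · right; left
      rw [lo_one]
  | succ Y hY ih =>
    obtain ⟨V, n0, hG, hV, hord, hor⟩ := ih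
    have hY1 : 1 ≤ Y := hY0.trans hY
    have hVle : V ≤ 2 ^ (2 * (Y + 1) ^ 2) :=
      hV.trans (Nat.pow_le_pow_right (by norm_num) (by nlinarith))
    have hord' : ∀ q : ℕ, q.Prime → q ∣ V → ∃ k, Y0 ≤ k ∧ k < Y + 1 ∧ orderOf (2 : ZMod q) = 4 * k := by
      intro q hq hd
      obtain ⟨k, h1, h2, h3⟩ := hord q hq hd
      exact ⟨k, h1, by omega, h3⟩
    by_cases hsm : #(lo U V n0) ≤ 2 * b
    · exact ⟨V, n0, hG, hVle, hord', Or.inl hsm⟩
    obtain ⟨q, hq, hoq, hq4⟩ := exists_ord Y hY1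
    by_cases hqP : q = P
    · -- the exceptional prime is left out
      refine ⟨V, n0, hG, hVle, hord', Or.inr (Or.inr ⟨?_, Y, hY, by omega, hqP ▸ hoq⟩)⟩
      rcases hor with h | h | ⟨h, k, hk1, hk2, hk3⟩
      · exact absurd h hsm
      · have hr8 : (0 : ℝ) ≤ (#(lo U V n0) : ℝ) ^ 8 := by positivity
        have hYr : (1 : ℝ) ≤ Y := by exact_mod_cast hY1
        push_cast
        nlinarith
      · exfalso
        rw [hqP] at hoq
        omega
    · have hqV : ¬ q ∣ V := by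
        intro hd
        obtain ⟨k, hk1, hk2, hk3⟩ := hord q hq hd
        omega
      obtain ⟨n1, hn1, hlo⟩ := greedy_step hG hP hq hqV hqP hoq hY1 (hb Y hY) (by omega)
      have hpot := pot hY1 (Nat.cast_nonneg _) hlo
      refine ⟨V * q, n1, hn1, ?_, ?_, ?_⟩
      · calc V * q ≤ 2 ^ (2 * Y ^ 2) * 2 ^ (4 * Y) := Nat.mul_le_mul hV hq4.le
          _ = 2 ^ (2 * Y ^ 2 + 4 * Y) := by rw [pow_add]
          _ ≤ 2 ^ (2 * (Y + 1) ^ 2) := Nat.pow_le_pow_right (by norm_num) (by nlinarith)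
      · intro r hr hd
        rcases (Nat.Prime.dvd_mul hr).1 hd with h | h
        · exact hord' r hr h
        · have hrq := (Nat.prime_dvd_prime_iff_eq hr hq).1 h
          exact ⟨Y, hY, by omega, hrq ▸ hoq⟩
      · rcases hor with h | h | ⟨h, k, hk1, hk2, hk3⟩
        · exact absurd h hsm
        · right; left
          push_cast
          linarith
        · right; right
          refine ⟨?_, k, hk1, by omega, hk3⟩
          push_cast
          linarith

end Pool.Agent.H536.LS
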