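import Mathlib
import Pool.Agent.H536.LS.Kill

open Finset Filter

/-! The second stage of the construction and the choice of the parameters. -/

namespace Pool.Agent.H536.LS

theorem card_pf {N t : ℕ} (h0 : N ≠ 0) (h : N ≤ 2 ^ t) : #N.primeFactors ≤ t := by
  have h1 : 2 ^ #N.primeFactors ≤ ∏ p ∈ N.primeFactors, p := by
    rw [← prod_const]
    exact prod_le_prod' fun p hp => (Nat.prime_of_mem_primeFactors hp).two_le
  have h2 : ∏ p ∈ N.primeFactors, p ≤ N := Nat.le_of_dvd (Nat.pos_of_ne_zero h0) (Nat.prod_primeFactors_dvd N)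
  exact (Nat.pow_le_pow_iff_right (by norm_num)).1 (h1.trans (h2.trans h))

/-- the difference of two positions -/
def df (e u : ℕ × Bool) : ℤ := 2 ^ e.1 * sg u.2 - 2 ^ u.1 * sg e.2

theorem df_ne {e u : ℕ × Bool} (h : e ≠ u) : df e u ≠ 0 := by
  intro h0
  apply h
  unfold df at h0
  have h1 : (2 : ℤ) ^ e.1 * sg u.2 = 2 ^ u.1 * sg e.2 := by linarith
  have hp1 : (0 : ℤ) < 2 ^ e.1 := by positivity
  have hp2 : (0 : ℤ) < 2 ^ u.1 := by positivity
  have h2 : sg u.2 = sg e.2 ∧ (2 : ℤ) ^ e.1 = 2 ^ u.1 := by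
    rcases sg_cases u.2 with ha | ha <;> rcases sg_cases e.2 with hb | hb <;> rw [ha, hb] at h1 ⊢ <;>
      constructor <;> linarith
  have h3 : e.1 = u.1 := by
    have := h2.2
    exact Int.pow_right_injective (by norm_num) this
  have h4 : e.2 = u.2 := by
    have := h2.1
    unfold sg at this
    cases hb1 : e.2 <;> cases hb2 : u.2 <;> rw [hb1, hb2] at this <;> simp at this ⊢
  exact Prod.ext h3 h4

theorem df_le {e u : ℕ × Bool} {J : ℕ} (he : e.1 ≤ J) (hu : u.1 ≤ J) : (df e u).natAbs ≤ 2 ^ (J + 1) := by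
  unfold df
  have h1 : (2 : ℕ) ^ e.1 ≤ 2 ^ J := Nat.pow_le_pow_right (by norm_num) he
  have h2 : (2 : ℕ) ^ u.1 ≤ 2 ^ J := Nat.pow_le_pow_right (by norm_num) hu
  have h3 : ((2 : ℤ) ^ e.1 * sg u.2).natAbs = 2 ^ e.1 := by
    rcases sg_cases u.2 with ha | ha <;> rw [ha] <;> simp
  have h4 : ((2 : ℤ) ^ u.1 * sg e.2).natAbs = 2 ^ u.1 := by
    rcases sg_cases e.2 with ha | ha <;> rw [ha] <;> simp
  have h5 := Int.natAbs_sub_le ((2 : ℤ) ^ e.1 * sg u.2) ((2 : ℤ) ^ u.1 * sg e.2)
  rw [h3, h4] at h5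
  rw [pow_succ]
  omega

/-- the second stage: one prime for each remaining position -/
theorem stage2' {E U : Finset (ℕ × Bool)} {P K J T B : ℕ} (hP : P.Prime) (hU : ∀ u ∈ U, u ∉ E ∧ u.1 ≤ J)
    (hE : ∀ e ∈ E, e.1 ≤ J) (hK : #E ≤ K) (hB : B = 8 + T + K * (J + 1)) (r : ℕ) :
    ∀ V n0 : ℕ, Gd E P V n0 → #(lo U V n0) ≤ r → V * (B ^ 4) ^ r ≤ 2 ^ T →
      ∃ V' n0' : ℕ, Gd E P V' n0' ∧ lo U V' n0' = ∅ ∧ V' ≤ V * (B ^ 4) ^ r := by
  classical
  have hB0 : 1 ≤ B ^ 4 := Nat.one_le_pow _ _ (by omega)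
  induction r with
  | zero =>
    intro V n0 hG hr hV
    refine ⟨V, n0, hG, card_eq_zero.1 (Nat.le_zero.1 hr), by simp⟩
  | succ r ih =>
    intro V n0 hG hr hV
    rcases (lo U V n0).eq_empty_or_nonempty with hemp | ⟨u, hu⟩
    · exact ⟨V, n0, hG, hemp, Nat.le_mul_of_pos_right _ (pow_pos (by omega) _)⟩
    · have huU := lo_sub U V n0 hu
      obtain ⟨huE, huJ⟩ := hU u huU
      have hVT : V ≤ 2 ^ T := (Nat.le_mul_of_pos_right _ (pow_pos (by omega) _)).trans hV
      obtain ⟨q, hq, hqS, hqB⟩ := prime_supply B (by omega)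
        ({2, P} ∪ V.primeFactors ∪ E.biUnion (fun e => (df e u).natAbs.primeFactors)) (by
          have h1 : #(({2, P} : Finset ℕ)) ≤ 2 := card_le_two
          have h2 : #V.primeFactors ≤ T := card_pf hG.pos.ne' hVT
          have h3 : #(E.biUnion (fun e => (df e u).natAbs.primeFactors)) ≤ #E * (J + 1) :=
            card_biUnion_le_card_mul _ _ _ fun e he => card_pf
              (by
                have := df_ne (e := e) (u := u) (fun h => huE (h ▸ he))
                simpa using this) (df_le (hE e he) huJ)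
          have h4 : #E * (J + 1) ≤ K * (J + 1) := Nat.mul_le_mul_right _ hK
          have h5 := card_union_le (({2, P} : Finset ℕ) ∪ V.primeFactors)
            (E.biUnion (fun e => (df e u).natAbs.primeFactors))
          have h6 := card_union_le (({2, P} : Finset ℕ)) V.primeFactors
          omega)
      rw [mem_union, mem_union, not_or, not_or] at hqS
      obtain ⟨⟨hq1, hq2⟩, hq3⟩ := hqS
      have hqne : q ≠ 2 ∧ q ≠ P := by
        constructor
        · rintro rfl; exact hq1 (by simp)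
        · rintro rfl; exact hq1 (by simp)
      have hqV : ¬ q ∣ V := fun hd => hq2 (Nat.mem_primeFactors.2 ⟨hq, hd, hG.pos.ne'⟩)
      have : Fact q.Prime := ⟨hq⟩
      have h20 : (2 : ZMod q) ≠ 0 := by
        have h : ((2 : ℕ) : ZMod q) ≠ 0 := by
          rw [Ne, ZMod.natCast_eq_zero_iff]
          intro hd
          exact hqne.1 ((Nat.prime_dvd_prime_iff_eq hq Nat.prime_two).1 hd)
        exact_mod_cast h
      set ρ : ℕ := (((2 : ZMod q) ^ u.1)⁻¹ * ((sg u.2 : ℤ) : ZMod q)).val with hρ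
      have hρu : (q : ℤ) ∣ vl u ρ := by
        rw [← ZMod.intCast_zmod_eq_zero_iff_dvd]
        unfold vl
        push_cast
        rw [hρ, ZMod.natCast_zmod_val, mul_inv_cancel_left₀ (pow_ne_zero _ h20), sub_self]
      obtain ⟨n1, hn1, hlo⟩ := step (U := U) hG hP hq hqV hqne.1 hqne.2 ρ (by
        intro e he hd
        apply hq3
        rw [mem_biUnion]
        refine ⟨e, he, ?_⟩
        have hne := df_ne (e := e) (u := u) (fun h => huE (h ▸ he))
        refine Nat.mem_primeFactors.2 ⟨hq, ?_, by simpa using hne⟩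
        rw [← Int.natCast_dvd]
        have h1 : df e u = 2 ^ u.1 * vl e ρ - 2 ^ e.1 * vl u ρ := by
          unfold df vl; ring
        rw [h1]
        exact dvd_sub (hd.mul_left _) (hρu.mul_left _))
      have hcard : #(lo U (V * q) n1) ≤ r := by
        have h1 : lo U (V * q) n1 ⊆ (lo U V n0).erase u := by
          intro w hw
          rw [hlo] at hw
          rw [mem_erase]
          refine ⟨?_, hw.1⟩
          rintro rfl
          exact hw.2 hρu
        have h2 := card_le_card h1
        rw [card_erase_of_mem hu] at h2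
        omega
      have hVq : V * q * (B ^ 4) ^ r ≤ V * (B ^ 4) ^ (r + 1) := by
        calc V * q * (B ^ 4) ^ r ≤ V * (B ^ 4) * (B ^ 4) ^ r := by gcongr
          _ = V * (B ^ 4) ^ (r + 1) := by ring
      obtain ⟨V', n0', h1, h2, h3⟩ := ih (V * q) n1 hn1 hcard (hVq.trans hV)
      exact ⟨V', n0', h1, h2, h3.trans hVq⟩

/-- the number of positions in a class -/
theorem cls_card {J k c : ℕ} (hk : 1 ≤ k) (U : Finset (ℕ × Bool)) (hU : ∀ u ∈ U, u.1 ≤ J) :
    #(U.filter (fun u => ph k u = c)) ≤ 2 * (J / (4 * k) + 2) := by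
  classical
  have hk4 : 0 < 4 * k := by omega
  have h1 : U.filter (fun u => ph k u = c) ⊆
      ((U.filter (fun u => ph k u = c)).image
        (fun u => ((u.1 + if u.2 then 0 else 2 * k) / (4 * k), u.2))).image
        (fun w => (w.1 * (4 * k) + c - (if w.2 then 0 else 2 * k), w.2)) := by
    intro u hu
    rw [mem_image]
    refine ⟨((u.1 + if u.2 then 0 else 2 * k) / (4 * k), u.2), mem_image_of_mem _ hu, ?_⟩
    have h2 := (mem_filter.1 hu).2
    unfold ph at h2
    have h3 := Nat.div_add_mod (u.1 + if u.2 then 0 else 2 * k) (4 * k)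
    rw [h2] at h3
    apply Prod.ext
    · simp only
      have h4 : (u.1 + if u.2 then 0 else 2 * k) / (4 * k) * (4 * k) = 4 * k * ((u.1 + if u.2 then 0 else 2 * k) / (4 * k)) :=
        mul_comm _ _
      omega
    · rfl
  refine (card_le_card h1).trans (card_image_le.trans ?_)
  have h2 : (U.filter (fun u => ph k u = c)).image
        (fun u => ((u.1 + if u.2 then 0 else 2 * k) / (4 * k), u.2)) ⊆
      (range (J / (4 * k) + 2)) ×ˢ (univ : Finset Bool) := by
    intro w hw
    rw [mem_image] at hw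
    obtain ⟨u, hu, rfl⟩ := hw
    rw [mem_product]
    refine ⟨?_, mem_univ _⟩
    rw [mem_range]
    simp only
    have h3 := hU u (mem_filter.1 hu).1
    have h4 : (u.1 + if u.2 then 0 else 2 * k) / (4 * k) ≤ (J + 4 * k) / (4 * k) := by
      apply Nat.div_le_div_right
      split <;> omega
    rw [Nat.add_div_right _ hk4] at h4
    omega
  refine (card_le_card h2).trans ?_
  rw [card_product, card_range, card_univ, Fintype.card_bool]
  omega

end Pool.Agent.H536.LS
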