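import Mathlib
import Pool.Agent.H536.LS.Kill2

open Finset Filter

/-! The final form of the construction. -/

namespace Pool.Agent.H536.LS

theorem ev_t (C1 C2 : ℝ) : ∀ᶠ T : ℕ in atTop, C1 + C2 * Real.log ((T : ℝ) ^ (1 / 180 : ℝ)) ≤ (T : ℝ) ^ (1 / 180 : ℝ) := by
  have h1 : Tendsto (fun T : ℕ => (T : ℝ) ^ (1 / 180 : ℝ)) atTop atTop :=
    (tendsto_rpow_atTop (by norm_num)).comp tendsto_natCast_atTop_atTop
  have h2 : ∀ᶠ t : ℝ in atTop, C1 + C2 * Real.log t ≤ t := by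
    have h3 := Real.isLittleO_log_id_atTop.bound (c := 1 / (2 * (|C2| + 1))) (by positivity)
    filter_upwards [h3, eventually_ge_atTop (2 * C1), eventually_ge_atTop (1 : ℝ)] with t h4 h5 h6
    have hl : 0 ≤ Real.log t := Real.log_nonneg h6
    rw [Real.norm_eq_abs, abs_of_nonneg hl, id, Real.norm_eq_abs, abs_of_nonneg (show (0 : ℝ) ≤ t by linarith)] at h4
    have h7 : C2 * Real.log t ≤ (|C2| + 1) * (1 / (2 * (|C2| + 1)) * t) := by
      have h8 : C2 ≤ |C2| + 1 := (le_abs_self C2).trans (by linarith)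
      calc C2 * Real.log t ≤ (|C2| + 1) * Real.log t := mul_le_mul_of_nonneg_right h8 hl
        _ ≤ _ := mul_le_mul_of_nonneg_left h4 (by positivity)
    have h9 : (|C2| + 1) * (1 / (2 * (|C2| + 1)) * t) = t / 2 := by
      field_simp
    linarith
  exact h1.eventually h2

set_option maxHeartbeats 4000000 in
theorem kill (K : ℕ) : ∃ T0 : ℕ, ∀ T : ℕ, T0 ≤ T → ∀ E : Finset (ℕ × Bool), #E ≤ K →
    (∀ e ∈ E, e.1 ^ 20 ≤ T ^ 21) → ∀ P : ℕ, P.Prime →
    ∃ V n0 : ℕ, Gd E P V n0 ∧ V ≤ 2 ^ T ∧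
      ∀ u : ℕ × Bool, u.1 ^ 20 ≤ T ^ 21 → u ∉ E → ∃ q : ℕ, q.Prime ∧ q ∣ V ∧ (q : ℤ) ∣ vl u n0 := by
  classical
  set Kr : ℝ := (K : ℝ) with hKr
  have hKr0 : 0 ≤ Kr := Nat.cast_nonneg K
  have hev := ev_t (64 * (9 * Kr + 4) / Real.log 2 * Real.log (9 + 2 * Kr)) (64 * (9 * Kr + 4) / Real.log 2 * 189)
  obtain ⟨T0, hT0⟩ := eventually_atTop.1 (hev.and (((tendsto_rpow_atTop (y := (1 / 180 : ℝ)) (by norm_num)).comp
    tendsto_natCast_atTop_atTop).eventually_ge_atTop 2))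
  refine ⟨T0, fun T hT E hK hE P hP => ?_⟩
  obtain ⟨hmain, ht2⟩ := hT0 T hT
  simp only [Function.comp_apply] at ht2
  set t : ℝ := (T : ℝ) ^ (1 / 180 : ℝ) with ht
  have hT0r : (0 : ℝ) ≤ T := Nat.cast_nonneg T
  have ht0 : 0 < t := by linarith
  have ht1 : 1 ≤ t := by linarith
  have ht180 : t ^ 180 = T := by
    rw [ht, ← Real.rpow_natCast, ← Real.rpow_mul hT0r]
    norm_num
  set J : ℕ := ⌊t ^ 189⌋₊ with hJ
  have hJle : (J : ℝ) ≤ t ^ 189 := Nat.floor_le (by positivity)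
  have hJlt : t ^ 189 < J + 1 := Nat.lt_floor_add_one _
  have hposJ : ∀ j : ℕ, j ^ 20 ≤ T ^ 21 → j ≤ J := by
    intro j hj
    apply Nat.le_floor
    have h1 : ((j : ℝ)) ^ 20 ≤ (t ^ 189) ^ 20 := by
      have h2 : ((j : ℝ)) ^ 20 ≤ (T : ℝ) ^ 21 := by exact_mod_cast hj
      rw [← ht180] at h2
      refine h2.trans (le_of_eq ?_)
      rw [← pow_mul, ← pow_mul]
    exact le_of_pow_le_pow_left₀ (by norm_num) (by positivity) h1
  set s : ℕ := ⌊t ^ 10 / 2⌋₊ with hs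
  have ht10 : (2 : ℝ) ^ 10 ≤ t ^ 10 := pow_le_pow_left₀ (by norm_num) ht2 10
  have hsle : (s : ℝ) ≤ t ^ 10 / 2 := Nat.floor_le (by positivity)
  have hslt : t ^ 10 / 2 < s + 1 := Nat.lt_floor_add_one _
  have hsge : t ^ 10 / 4 ≤ s := by linarith
  have hs1 : 1 ≤ s := by
    have : (1 : ℝ) ≤ s := by linarith
    exact_mod_cast this
  have hs0 : (0 : ℝ) < s := by exact_mod_cast hs1
  have hs18 : 4 * s ^ 18 ≤ T := by
    have h1 : (4 : ℝ) * (s : ℝ) ^ 18 ≤ T := by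
      calc (4 : ℝ) * (s : ℝ) ^ 18 ≤ 4 * (t ^ 10 / 2) ^ 18 := by gcongr
        _ = t ^ 180 * (4 / 2 ^ 18) := by ring
        _ ≤ t ^ 180 * 1 := by gcongr; norm_num
        _ = T := by rw [mul_one, ht180]
    exact_mod_cast h1
  set U : Finset (ℕ × Bool) := ((range (J + 1)) ×ˢ (univ : Finset Bool)).filter (fun u => u ∉ E) with hU
  have hUmem : ∀ u, u ∈ U ↔ u.1 ≤ J ∧ u ∉ E := by
    intro u
    rw [hU, mem_filter, mem_product, mem_range]
    constructor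
    · rintro ⟨⟨h1, _⟩, h2⟩; exact ⟨by omega, h2⟩
    · rintro ⟨h1, h2⟩; exact ⟨⟨by omega, mem_univ _⟩, h2⟩
  have hUcard : #U ≤ 2 * (J + 1) := by
    refine (card_filter_le _ _).trans ?_
    rw [card_product, card_range, card_univ, Fintype.card_bool]
    omega
  set b : ℕ := K * (2 * (J / (4 * s) + 2)) with hb
  obtain ⟨V1, n1, hG1, hV1, _, hor⟩ := stage1 (E := E) (U := U) hP hs1 (b := b) (by
    intro k hk
    have hk1 : 1 ≤ k := hs1.trans hk
    have h1 : U.filter (fun u => ph k u ∈ E.image (ph k)) ⊆ E.biUnion (fun e => U.filter (fun u => ph k u = ph k e)) := by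
      intro u hu
      rw [mem_filter, mem_image] at hu
      obtain ⟨hu1, e, he, heq⟩ := hu
      rw [mem_biUnion]
      exact ⟨e, he, mem_filter.2 ⟨hu1, heq.symm⟩⟩
    refine (card_le_card h1).trans ((card_biUnion_le_card_mul _ _ (2 * (J / (4 * s) + 2)) ?_).trans
      (Nat.mul_le_mul_right _ hK))
    intro e _
    refine (cls_card hk1 U (fun u hu => ((hUmem u).1 hu).1)).trans ?_
    have h2 : J / (4 * k) ≤ J / (4 * s) := Nat.div_le_div_left (by omega) (by omega)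
    omega) (s ^ 9) (Nat.le_self_pow (by norm_num) s)
  set r1 := #(lo U V1 n1) with hr1
  -- the number of the remaining positions
  have hJ0 : (0 : ℝ) ≤ J := Nat.cast_nonneg J
  have hsJ : (s : ℝ) ≤ J + 1 := by
    have h1 : t ^ 10 ≤ t ^ 189 := pow_le_pow_right₀ ht1 (by norm_num)
    have : t ^ 10 / 2 ≤ t ^ 10 := by linarith [pow_pos ht0 10]
    linarith
  have hr1s : (r1 : ℝ) * s ≤ (9 * Kr + 4) * (J + 1) := by
    have hUr : (#U : ℝ) ≤ 2 * (J + 1) := by exact_mod_cast hUcard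
    have hcase : (r1 : ℝ) ≤ 2 * b ∨ (r1 : ℝ) * s ≤ 2 * #U := by
      have hfin : ∀ x : ℝ, (r1 : ℝ) ^ 8 * ((s ^ 9 : ℕ) : ℝ) ≤ 2 * ((#U : ℝ) ^ 8 * s) → (r1 : ℝ) * s ≤ 2 * #U := by
        intro _ h
        have h1 : ((r1 : ℝ) * s) ^ 8 * s ≤ (2 * (#U : ℝ) ^ 8) * s := by
          push_cast at h
          calc ((r1 : ℝ) * s) ^ 8 * s = (r1 : ℝ) ^ 8 * (s : ℝ) ^ 9 := by ring
            _ ≤ 2 * ((#U : ℝ) ^ 8 * s) := h
            _ = _ := by ring
        have h2 := le_of_mul_le_mul_right h1 hs0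
        have h3 : ((r1 : ℝ) * s) ^ 8 ≤ (2 * (#U : ℝ)) ^ 8 := by
          refine h2.trans ?_
          rw [mul_pow]
          have : (0 : ℝ) ≤ (#U : ℝ) ^ 8 := by positivity
          nlinarith
        exact le_of_pow_le_pow_left₀ (by norm_num) (by positivity) h3
      rcases hor with h | h | ⟨h, _⟩
      · left; exact_mod_cast h
      · right
        apply hfin 0
        have : (0 : ℝ) ≤ (#U : ℝ) ^ 8 * s := by positivity
        linarith
      · right
        exact hfin 0 h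
    rcases hcase with h | h
    · have hbr : (b : ℝ) = Kr * (2 * (((J / (4 * s) : ℕ) : ℝ) + 2)) := by
        rw [hb]; push_cast; rfl
      have hdiv : (((J / (4 * s) : ℕ)) : ℝ) * (4 * s) ≤ J := by
        have := Nat.div_mul_le_self J (4 * s)
        exact_mod_cast this
      have h1 : (r1 : ℝ) * s ≤ 2 * b * s := mul_le_mul_of_nonneg_right h hs0.le
      have h2 : 2 * (b : ℝ) * s = Kr * ((((J / (4 * s) : ℕ)) : ℝ) * (4 * s)) + 8 * Kr * s := by
        rw [hbr]; ring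
      have h3 : Kr * ((((J / (4 * s) : ℕ)) : ℝ) * (4 * s)) ≤ Kr * J := mul_le_mul_of_nonneg_left hdiv hKr0
      have h4 : 8 * Kr * s ≤ 8 * Kr * (J + 1) := mul_le_mul_of_nonneg_left hsJ (by positivity)
      nlinarith
    · nlinarith
  have hJ2 : (J : ℝ) + 1 ≤ 2 * t ^ 189 := by
    have : 1 ≤ t ^ 189 := one_le_pow₀ ht1
    linarith
  have hr1t : (r1 : ℝ) ≤ 8 * (9 * Kr + 4) * t ^ 179 := by
    have h1 : (r1 : ℝ) * (t ^ 10 / 4) ≤ (9 * Kr + 4) * (2 * t ^ 189) :=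
      (mul_le_mul_of_nonneg_left hsge (Nat.cast_nonneg _)).trans
        (hr1s.trans (mul_le_mul_of_nonneg_left hJ2 (by positivity)))
    have h2 : (8 * (9 * Kr + 4) * t ^ 179) * (t ^ 10 / 4) = (9 * Kr + 4) * (2 * t ^ 189) := by ring
    rw [← h2] at h1
    exact le_of_mul_le_mul_right h1 (by positivity)
  -- the size of the modulus
  obtain ⟨B, hB⟩ : ∃ B : ℕ, B = 8 + T + K * (J + 1) := ⟨_, rfl⟩
  have hBr : (B : ℝ) ≤ (9 + 2 * Kr) * t ^ 189 := by
    have h1 : (1 : ℝ) ≤ t ^ 189 := one_le_pow₀ ht1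
    have h2 : (T : ℝ) ≤ t ^ 189 := by
      rw [← ht180]; exact pow_le_pow_right₀ ht1 (by norm_num)
    rw [hB]; push_cast
    have h3 : Kr * ((J : ℝ) + 1) ≤ Kr * (2 * t ^ 189) := mul_le_mul_of_nonneg_left hJ2 hKr0
    nlinarith
  have hB1 : (1 : ℝ) ≤ B := by
    have : 1 ≤ B := by omega
    exact_mod_cast this
  have hl2 : 0 < Real.log 2 := Real.log_pos (by norm_num)
  have hlogB : Real.log B ≤ Real.log (9 + 2 * Kr) + 189 * Real.log t := by
    calc Real.log B ≤ Real.log ((9 + 2 * Kr) * t ^ 189) := Real.log_le_log (by linarith) hBr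
      _ = _ := by
        rw [Real.log_mul (by positivity) (by positivity), Real.log_pow]
        norm_num
  have hlogB0 : 0 ≤ Real.log B := Real.log_nonneg hB1
  have hsize : (4 * r1 : ℝ) * Real.log B ≤ (T : ℝ) / 2 * Real.log 2 := by
    have h1 : (4 * r1 : ℝ) * Real.log B ≤ 4 * (8 * (9 * Kr + 4) * t ^ 179) * (Real.log (9 + 2 * Kr) + 189 * Real.log t) := by
      apply mul_le_mul _ hlogB hlogB0 (by positivity)
      linarith
    have h2 : 64 * (9 * Kr + 4) / Real.log 2 * Real.log (9 + 2 * Kr) +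
        64 * (9 * Kr + 4) / Real.log 2 * 189 * Real.log t =
        64 * (9 * Kr + 4) * (Real.log (9 + 2 * Kr) + 189 * Real.log t) / Real.log 2 := by ring
    rw [h2, div_le_iff₀ hl2] at hmain
    have h3 : t ^ 179 * (64 * (9 * Kr + 4) * (Real.log (9 + 2 * Kr) + 189 * Real.log t)) ≤
        t ^ 179 * (t * Real.log 2) := mul_le_mul_of_nonneg_left hmain (by positivity)
    have h4 : t ^ 179 * (t * Real.log 2) = T * Real.log 2 := by rw [← ht180]; ring
    rw [h4] at h3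
    have h5 : 4 * (8 * (9 * Kr + 4) * t ^ 179) * (Real.log (9 + 2 * Kr) + 189 * Real.log t) =
        t ^ 179 * (64 * (9 * Kr + 4) * (Real.log (9 + 2 * Kr) + 189 * Real.log t)) / 2 := by ring
    rw [h5] at h1
    linarith
  have hV1T : V1 * (B ^ 4) ^ r1 ≤ 2 ^ T := by
    have h1 : (V1 : ℝ) ≤ 2 ^ (2 * (s ^ 9) ^ 2) := by exact_mod_cast hV1
    have h2 : ((2 : ℝ) ^ (2 * (s ^ 9) ^ 2)) ≤ Real.exp ((T : ℝ) / 2 * Real.log 2) := by
      rw [← Real.rpow_natCast, Real.rpow_def_of_pos (by norm_num), mul_comm]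
      apply Real.exp_le_exp.2
      apply mul_le_mul_of_nonneg_right _ hl2.le
      have h3 : ((2 * (s ^ 9) ^ 2 : ℕ) : ℝ) * 2 ≤ T := by
        have h4 : 2 * (s ^ 9) ^ 2 * 2 = 4 * s ^ 18 := by ring
        have h5 : 2 * (s ^ 9) ^ 2 * 2 ≤ T := by rw [h4]; exact hs18
        exact_mod_cast h5
      linarith
    have h3 : (((B : ℝ) ^ 4) ^ r1) ≤ Real.exp ((T : ℝ) / 2 * Real.log 2) := by
      rw [← pow_mul, ← Real.rpow_natCast, Real.rpow_def_of_pos (by linarith)]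
      apply Real.exp_le_exp.2
      push_cast
      linarith
    have h4 : ((V1 * (B ^ 4) ^ r1 : ℕ) : ℝ) ≤ ((2 ^ T : ℕ) : ℝ) := by
      push_cast
      calc (V1 : ℝ) * ((B : ℝ) ^ 4) ^ r1 ≤ Real.exp ((T : ℝ) / 2 * Real.log 2) * Real.exp ((T : ℝ) / 2 * Real.log 2) :=
            mul_le_mul (h1.trans h2) h3 (by positivity) (Real.exp_pos _).le
        _ = (2 : ℝ) ^ T := by
            rw [← Real.exp_add, ← Real.rpow_natCast, Real.rpow_def_of_pos (by norm_num)]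
            congr 1; ring
    exact_mod_cast h4
  obtain ⟨V, n0, hG, hlo, hV⟩ := stage2' (U := U) hP (fun u hu => ⟨((hUmem u).1 hu).2, ((hUmem u).1 hu).1⟩)
    (fun e he => hposJ e.1 (hE e he)) hK hB r1 V1 n1 hG1 le_rfl hV1T
  refine ⟨V, n0, hG, hV.trans hV1T, ?_⟩
  intro u hu huE
  by_contra hcon
  push Not at hcon
  have h1 : u ∈ lo U V n0 := by
    unfold lo
    rw [mem_filter]
    exact ⟨(hUmem u).2 ⟨hposJ u.1 hu, huE⟩, fun q hq hd => hcon q hq hd⟩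
  rw [hlo] at h1
  exact absurd h1 (notMem_empty u)

end Pool.Agent.H536.LS
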