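import Mathlib
import Pool.Agent.H536.LS.Ex
import Pool.Agent.H536.LS.Kill3

open Finset Filter

/-! Exact sets of primes in Cunningham sequences of both kinds, at the scale of Linnik's theorem. -/

namespace Pool.Agent.H536.LS

open Pool.Agent.H262R3.Lk
open Pool.Agent.H378R2 Pool.Agent.H262R2.UM Pool.Agent.H262R2.UP

/-- natural number form of `vl` -/
def vn (u : ℕ × Bool) (n : ℕ) : ℕ := if u.2 then 2 ^ u.1 * n - 1 else 2 ^ u.1 * n + 1

theorem vn_cast {u : ℕ × Bool} {n : ℕ} (hn : 1 ≤ n) : ((vn u n : ℕ) : ℤ) = vl u n := by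
  unfold vn vl sg
  have h1 : 1 ≤ 2 ^ u.1 * n := Nat.mul_pos (by positivity) hn
  split
  · rw [Nat.cast_sub h1]; push_cast; ring
  · push_cast; ring

theorem vn_ge {u : ℕ × Bool} {n : ℕ} : n ≤ vn u n + 1 := by
  have h1 : n ≤ 2 ^ u.1 * n := Nat.le_mul_of_pos_left _ (by positivity)
  unfold vn
  split <;> omega

theorem single {K A m T g M P : ℕ} (hP : P.Prime) (hP2 : 2 < P)
    (hF : ∀ a b : Fin K → ℕ, Adm a b → (∀ i, 0 < a i ∧ b i ≤ a i) → Function.Injective (fun i => (a i, b i)) →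
      (∀ i, a i ≤ M) → (∀ i, ¬ P ∣ a i) →
      ∃ n : ℕ, (n : ℝ) ≤ 8 * (M : ℝ) ^ A ∧ m ≤ #((univ : Finset (Fin K)).filter (fun i => (a i * n + b i).Prime)))
    (E : Finset (ℕ × Bool)) (hK : #E = K) (hE : ∀ e ∈ E, 1 ≤ e.1 ∧ e.1 ≤ T) {V n0 : ℕ} (hG : Gd E P V n0)
    (hM : 2 ^ T * (2 ^ (g + 1) * V) ≤ M) (r : ℕ) :
    ∃ n : ℕ, 2 ^ g * V ≤ n ∧ (n : ℝ) ≤ 9 * (M : ℝ) ^ (A + 1) ∧ n ≡ r [MOD 2 ^ g] ∧ n ≡ n0 [MOD V] ∧
      m ≤ #(E.filter (fun e => (vn e n).Prime)) := by
  classical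
  have hVpos := hG.pos
  have hVodd : V.Coprime 2 := ((Nat.Prime.coprime_iff_not_dvd Nat.prime_two).2 hG.odd).symm
  have hco : (2 ^ g).Coprime V := (Nat.Coprime.pow_right g hVodd).symm
  obtain ⟨x, hx, hxlt⟩ : ∃ x : ℕ, (x ≡ r [MOD 2 ^ g] ∧ x ≡ n0 [MOD V]) ∧ x < 2 ^ g * V :=
    ⟨Nat.chineseRemainder hco r n0, (Nat.chineseRemainder hco r n0).2,
      Nat.chineseRemainder_lt_mul hco r n0 (by positivity) hVpos.ne'⟩
  obtain ⟨n1, hn1⟩ : ∃ n1 : ℕ, n1 = x + 2 ^ g * V := ⟨_, rfl⟩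
  obtain ⟨N, hN⟩ : ∃ N : ℕ, N = 2 ^ (g + 1) * V := ⟨_, rfl⟩
  have hN2 : N = 2 ^ g * V + 2 ^ g * V := by rw [hN, pow_succ]; ring
  have hgV : 0 < 2 ^ g * V := by positivity
  have hN0 : 0 < N := by omega
  have hn1lt : n1 < N := by omega
  have hn1ge : 2 ^ g * V ≤ n1 := by omega
  have hn1a : n1 ≡ r [MOD 2 ^ g] := by
    rw [hn1]
    have h1 : x + 2 ^ g * V ≡ x + 0 [MOD 2 ^ g] :=
      Nat.ModEq.add_left x ((Nat.modEq_zero_iff_dvd).2 (dvd_mul_right _ _))
    rw [add_zero] at h1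
    exact h1.trans hx.1
  have hn1b : n1 ≡ n0 [MOD V] := by
    rw [hn1]
    have h1 : x + 2 ^ g * V ≡ x + 0 [MOD V] :=
      Nat.ModEq.add_left x ((Nat.modEq_zero_iff_dvd).2 (dvd_mul_left _ _))
    rw [add_zero] at h1
    exact h1.trans hx.2
  have hNg : 2 ^ g ∣ N := by rw [hN, pow_succ, mul_assoc]; exact dvd_mul_right _ _
  have hNV : V ∣ N := by rw [hN]; exact dvd_mul_left _ _
  have hNm : ∀ (d n : ℕ), d ∣ N → N * n + n1 ≡ n1 [MOD d] := by
    intro d n hd
    have h1 : N * n + n1 ≡ 0 + n1 [MOD d] :=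
      Nat.ModEq.add_right n1 ((Nat.modEq_zero_iff_dvd).2 (hd.mul_right _))
    rw [zero_add] at h1
    exact h1
  -- the family
  obtain ⟨e, he⟩ : ∃ e : Fin K → ℕ × Bool, Function.Injective e ∧ (∀ i, e i ∈ E) ∧ ∀ u ∈ E, ∃ i, e i = u := by
    refine ⟨fun i => ((E.equivFinOfCardEq hK).symm i : ℕ × Bool), ?_, ?_, ?_⟩
    · intro i j hij
      exact (E.equivFinOfCardEq hK).symm.injective (Subtype.ext hij)
    · intro i
      exact ((E.equivFinOfCardEq hK).symm i).2
    · intro u hu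
      exact ⟨E.equivFinOfCardEq hK ⟨u, hu⟩, by simp⟩
  obtain ⟨heinj, heE, hesur⟩ := he
  have hn1pos : 1 ≤ n1 := by omega
  have hval : ∀ (i : Fin K) (n : ℕ), 2 ^ (e i).1 * N * n + vn (e i) n1 = vn (e i) (N * n + n1) := by
    intro i n
    have h1 : ((2 ^ (e i).1 * N * n + vn (e i) n1 : ℕ) : ℤ) = ((vn (e i) (N * n + n1) : ℕ) : ℤ) := by
      rw [vn_cast (by omega)]
      push_cast
      rw [vn_cast hn1pos]
      unfold vl
      ring
    exact_mod_cast h1
  obtain ⟨n, hn, hm⟩ := hF (fun i => 2 ^ (e i).1 * N) (fun i => vn (e i) n1) (by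
      intro p hp
      by_cases hp2 : p = 2
      · subst hp2
        refine ⟨0, fun i hd => ?_⟩
        rw [hval] at hd
        have h1 : (2 : ℤ) ∣ vl (e i) ((N * 0 + n1 : ℕ) : ℤ) := by
          rw [← vn_cast (by omega)]
          exact_mod_cast hd
        unfold vl at h1
        have h2 : (2 : ℤ) ∣ 2 ^ (e i).1 * ((N * 0 + n1 : ℕ) : ℤ) :=
          (dvd_pow_self 2 (by have := (hE _ (heE i)).1; omega)).mul_right _
        have h3 : (2 : ℤ) ∣ sg (e i).2 := by
          have := dvd_sub h2 h1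
          simpa using this
        rcases sg_cases (e i).2 with h | h <;> rw [h] at h3 <;> norm_num at h3
      · by_cases hpV : p ∣ V
        · refine ⟨0, fun i hd => ?_⟩
          rw [hval] at hd
          have h1 : (p : ℤ) ∣ vl (e i) ((N * 0 + n1 : ℕ) : ℤ) := by
            rw [← vn_cast (by omega)]
            exact_mod_cast hd
          rw [vl_congr ((hNm V 0 hNV).trans hn1b) hpV] at h1
          exact hG.prot p hp hpV _ (heE i) h1
        · have hpN : ¬ p ∣ N := by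
            rw [hN]
            intro hd
            rcases (Nat.Prime.dvd_mul hp).1 hd with h | h
            · exact hp2 ((Nat.prime_dvd_prime_iff_eq hp Nat.prime_two).1 (hp.dvd_of_dvd_pow h))
            · exact hpV h
          have hcoN : N.Coprime p := ((Nat.Prime.coprime_iff_not_dvd hp).2 hpN).symm
          have : Fact p.Prime := ⟨hp⟩
          have hNz : (N : ZMod p) ≠ 0 := by
            rw [Ne, ZMod.natCast_eq_zero_iff]; exact hpN
          refine ⟨(-(n1 : ZMod p) * (N : ZMod p)⁻¹).val, fun i hd => ?_⟩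
          rw [hval] at hd
          set y := (-(n1 : ZMod p) * (N : ZMod p)⁻¹).val with hy
          have h1 : (p : ℤ) ∣ vl (e i) ((N * y + n1 : ℕ) : ℤ) := by
            rw [← vn_cast (by omega)]
            exact_mod_cast hd
          have h2 : (p : ℤ) ∣ ((N * y + n1 : ℕ) : ℤ) := by
            rw [← ZMod.intCast_zmod_eq_zero_iff_dvd]
            push_cast
            rw [hy, ZMod.natCast_zmod_val, mul_comm (-(n1 : ZMod p)), mul_inv_cancel_left₀ hNz]
            ring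
          unfold vl at h1
          have h3 : (p : ℤ) ∣ sg (e i).2 := by
            have := dvd_sub (h2.mul_left (2 ^ (e i).1)) h1
            simpa using this
          have h4 : (p : ℤ) ∣ 1 := by
            rcases sg_cases (e i).2 with h | h
            · rwa [h] at h3
            · rw [h] at h3
              exact (Int.dvd_neg).1 h3
          have h5 : p ∣ 1 := by exact_mod_cast h4
          exact hp.one_lt.ne' (Nat.dvd_one.1 h5))
    (by
      intro i
      refine ⟨by positivity, ?_⟩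
      have h1 : vn (e i) n1 ≤ 2 ^ (e i).1 * n1 + 1 := by
        unfold vn; split <;> omega
      have h2 : 2 ^ (e i).1 * n1 + 1 ≤ 2 ^ (e i).1 * N := by
        have h3 : 2 ^ (e i).1 * (n1 + 1) ≤ 2 ^ (e i).1 * N := Nat.mul_le_mul_left _ (by omega)
        have h4 : 1 ≤ 2 ^ (e i).1 := Nat.one_le_two_pow
        have h5 : 2 ^ (e i).1 * (n1 + 1) = 2 ^ (e i).1 * n1 + 2 ^ (e i).1 := by ring
        omega
      exact h1.trans h2)
    (by
      intro i j hij
      apply heinj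
      rw [Prod.mk.injEq] at hij
      have h1 : (e i).1 = (e j).1 := by
        have h2 := Nat.eq_of_mul_eq_mul_right hN0 hij.1
        exact Nat.pow_right_injective (le_refl 2) h2
      have h2 : vl (e i) n1 = vl (e j) n1 := by
        rw [← vn_cast hn1pos, ← vn_cast hn1pos]
        exact_mod_cast hij.2
      unfold vl at h2
      rw [h1] at h2
      have h3 : sg (e i).2 = sg (e j).2 := by linarith
      have h4 : (e i).2 = (e j).2 := by
        unfold sg at h3
        cases hb1 : (e i).2 <;> cases hb2 : (e j).2 <;> rw [hb1, hb2] at h3 <;> simp at h3 ⊢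
      exact Prod.ext h1 h4)
    (by
      intro i
      have h1 : 2 ^ (e i).1 ≤ 2 ^ T := Nat.pow_le_pow_right (by norm_num) (hE _ (heE i)).2
      rw [← hN] at hM
      exact (Nat.mul_le_mul_right N h1).trans hM)
    (by
      intro i hd
      rw [hN] at hd
      have hp2' : ∀ k : ℕ, ¬ P ∣ 2 ^ k := by
        intro k h
        have := (Nat.prime_dvd_prime_iff_eq hP Nat.prime_two).1 (hP.dvd_of_dvd_pow h)
        omega
      rcases (Nat.Prime.dvd_mul hP).1 hd with h | h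
      · exact hp2' _ h
      · rcases (Nat.Prime.dvd_mul hP).1 h with h | h
        · exact hp2' _ h
        · exact hG.nP h)
  refine ⟨N * n + n1, by omega, ?_, ?_, ?_, ?_⟩
  · have hNM : N ≤ M := by
      rw [← hN] at hM
      exact (Nat.le_mul_of_pos_left _ (by positivity)).trans hM
    have hM1 : (1 : ℝ) ≤ M := by
      have : 1 ≤ M := by omega
      exact_mod_cast this
    have hNr : (N : ℝ) ≤ M := by exact_mod_cast hNM
    have hnr : (n1 : ℝ) ≤ N := by exact_mod_cast hn1lt.le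
    push_cast
    have hMA : (1 : ℝ) ≤ (M : ℝ) ^ A := one_le_pow₀ hM1
    calc (N : ℝ) * n + n1 ≤ M * (8 * (M : ℝ) ^ A) + M * (M : ℝ) ^ A := by
          apply add_le_add
          · exact mul_le_mul hNr hn (Nat.cast_nonneg _) (by linarith)
          · nlinarith
      _ = 9 * (M : ℝ) ^ (A + 1) := by ring
  · exact (hNm _ n hNg).trans hn1a
  · exact (hNm _ n hNV).trans hn1b
  · refine hm.trans ?_
    have h1 : ((univ : Finset (Fin K)).filter (fun i => (2 ^ (e i).1 * N * n + vn (e i) n1).Prime)).image e ⊆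
        E.filter (fun u => (vn u (N * n + n1)).Prime) := by
      intro u hu
      rw [mem_image] at hu
      obtain ⟨i, hi, rfl⟩ := hu
      rw [mem_filter] at hi ⊢
      refine ⟨heE i, ?_⟩
      rw [← hval]
      exact hi.2
    have h2 := card_le_card h1
    rwa [card_image_of_injective _ heinj] at h2

/-- exact sets of primes of both kinds -/
theorem main (m : ℕ) : ∃ K A T0 : ℕ, 0 < A ∧ ∀ T : ℕ, T0 ≤ T → ∀ E : Finset (ℕ × Bool),
    (∀ e ∈ E, 1 ≤ e.1 ∧ e.1 ≤ T) → K ≤ #E →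
    ∃ F : Finset (ℕ × Bool), F ⊆ E ∧ m ≤ #F ∧ ∃ S : Finset ℕ, 2 ^ T ≤ #S ∧ ∀ n ∈ S, n ≤ 2 ^ (A * T) ∧
      Odd n ∧ 2 ^ T ≤ n ∧ ∀ u : ℕ × Bool, u.1 ^ 20 ≤ T ^ 21 → ((vn u n).Prime ↔ u ∈ F) := by
  classical
  obtain ⟨K, A, M0, hev⟩ := evP (m + 1)
  obtain ⟨T1, hkill⟩ := kill K
  -- the number of forms is positive
  have hK1 : 1 ≤ K := by
    by_contra hK
    have hK0 : K = 0 := by omega
    subst hK0
    obtain ⟨P, _, _, hF⟩ := hev M0 le_rfl
    obtain ⟨n, _, hm⟩ := hF (fun i => i.elim0) (fun i => i.elim0) (fun p _ => ⟨0, fun i => i.elim0⟩)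
      (fun i => i.elim0) (fun i => i.elim0) (fun i => i.elim0) (fun i => i.elim0)
    simp at hm
  refine ⟨K, (K + 7) * (A + 1) + 4, M0 + T1 + 1, by omega, fun T hT E hE hKE => ?_⟩
  have hT1 : 1 ≤ T := by omega
  obtain ⟨E', hE', hcard⟩ := exists_subset_card_eq hKE
  have hEE : ∀ e ∈ E', 1 ≤ e.1 ∧ e.1 ≤ T := fun e he => hE e (hE' he)
  obtain ⟨g, hg⟩ : ∃ g : ℕ, g = T + K + 1 := ⟨_, rfl⟩
  obtain ⟨M, hM⟩ : ∃ M : ℕ, M = 2 ^ T * (2 ^ (g + 1) * 2 ^ T) := ⟨_, rfl⟩
  have hMM : M0 ≤ M := by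
    have h1 : T < 2 ^ T := Nat.lt_two_pow_self
    have h2 : 2 ^ T ≤ M := by
      rw [hM]
      exact Nat.le_mul_of_pos_right _ (by positivity)
    omega
  obtain ⟨P, hP, hKP, hF⟩ := hev M hMM
  obtain ⟨V, n0, hG, hVT, hk⟩ := hkill T (by omega) E' hcard.le (by
    intro e he
    have h1 := (hEE e he).2
    calc e.1 ^ 20 ≤ T ^ 20 := Nat.pow_le_pow_left h1 20
      _ ≤ T ^ 21 := Nat.pow_le_pow_right hT1 (by norm_num)) P hP
  have hMV : 2 ^ T * (2 ^ (g + 1) * V) ≤ M := by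
    rw [hM]; gcongr
  have hsing : ∀ i : ℕ, ∃ n : ℕ, 2 ^ g * V ≤ n ∧ (n : ℝ) ≤ 9 * (M : ℝ) ^ (A + 1) ∧ n ≡ 2 * i + 1 [MOD 2 ^ g] ∧
      n ≡ n0 [MOD V] ∧ m + 1 ≤ #(E'.filter (fun e => (vn e n).Prime)) := fun i =>
    single hP (by omega) hF E' hcard hEE hG hMV (2 * i + 1)
  choose f hf1 hf2 hf3 hf4 hf5 using hsing
  have hgpos : 0 < g := by omega
  -- injectivity
  have hinj : Set.InjOn f (range (2 ^ (T + K)) : Set ℕ) := by
    intro i hi j hj hij
    rw [mem_coe, mem_range] at hi hj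
    have h1 : 2 * i + 1 ≡ 2 * j + 1 [MOD 2 ^ g] := (hf3 i).symm.trans (hij ▸ hf3 j)
    have h2 : 2 ^ g = 2 * 2 ^ (T + K) := by rw [hg, pow_succ]; ring
    have h3 := Nat.ModEq.eq_of_lt_of_lt h1 (by omega) (by omega)
    omega
  -- pigeonhole
  obtain ⟨F, hFmem, hFcard⟩ := exists_le_card_fiber_of_mul_le_card_of_maps_to
    (s := (range (2 ^ (T + K))).image f) (t := E'.powerset) (f := fun n => E'.filter (fun e => (vn e n).Prime))
    (n := 2 ^ T) (fun n _ => mem_powerset.2 (filter_subset _ _)) ⟨∅, by simp⟩ (by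
      rw [card_powerset, hcard, card_image_of_injOn hinj, card_range, ← pow_add, add_comm K T])
  have hA : ((9 : ℝ) * (M : ℝ) ^ (A + 1)) ≤ ((2 ^ (((K + 7) * (A + 1) + 4) * T) : ℕ) : ℝ) := by
    have h1 : M = 2 ^ (3 * T + K + 2) := by
      rw [hM, hg, ← pow_add, ← pow_add]
      congr 1; ring
    have h2 : M ≤ 2 ^ ((K + 5) * T) := by
      rw [h1]
      apply Nat.pow_le_pow_right (by norm_num)
      nlinarith
    have h3 : 9 * M ^ (A + 1) ≤ 2 ^ (((K + 7) * (A + 1) + 4) * T) := by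
      calc 9 * M ^ (A + 1) ≤ 2 ^ (4 * T) * (2 ^ ((K + 5) * T)) ^ (A + 1) := by
            apply Nat.mul_le_mul _ (Nat.pow_le_pow_left h2 _)
            calc 9 ≤ 2 ^ (4 * 1) := by norm_num
              _ ≤ 2 ^ (4 * T) := Nat.pow_le_pow_right (by norm_num) (by omega)
        _ = 2 ^ (4 * T + (K + 5) * T * (A + 1)) := by rw [← pow_mul, ← pow_add]
        _ ≤ 2 ^ (((K + 7) * (A + 1) + 4) * T) := by
            apply Nat.pow_le_pow_right (by norm_num)
            nlinarith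
    exact_mod_cast h3
  refine ⟨F, (mem_powerset.1 hFmem).trans hE', ?_, _, hFcard, ?_⟩
  · have h1 : 0 < 2 ^ T := by positivity
    obtain ⟨n, hn⟩ := card_pos.1 (h1.trans_le hFcard)
    rw [mem_filter, mem_image] at hn
    obtain ⟨⟨i, _, rfl⟩, hFi⟩ := hn
    rw [← hFi]
    exact (Nat.le_succ m).trans (hf5 i)
  · intro n hn
    rw [mem_filter, mem_image] at hn
    obtain ⟨⟨i, _, rfl⟩, hFi⟩ := hn
    have hge : 2 ^ g * V ≤ f i := hf1 i
    have hg4 : 4 ≤ 2 ^ g := by
      calc 4 = 2 ^ 2 := by norm_num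
        _ ≤ 2 ^ g := Nat.pow_le_pow_right (by norm_num) (by omega)
    have hVpos := hG.pos
    refine ⟨?_, ?_, ?_, ?_⟩
    · have := (hf2 i).trans hA
      exact_mod_cast this
    · have h1 : f i ≡ 2 * i + 1 [MOD 2] := (hf3 i).of_dvd (dvd_pow_self 2 (by omega))
      rw [Nat.odd_iff]
      unfold Nat.ModEq at h1
      omega
    · have h1 : 2 ^ T ≤ 2 ^ g := Nat.pow_le_pow_right (by norm_num) (by omega)
      exact h1.trans ((Nat.le_mul_of_pos_right _ hVpos).trans hge)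
    · intro u hu
      rw [← hFi]
      by_cases huE : u ∈ E'
      · rw [mem_filter]
        exact ⟨fun h => ⟨huE, h⟩, fun h => h.2⟩
      · constructor
        · intro hpr
          exfalso
          obtain ⟨q, hq, hqV, hqd⟩ := hk u hu huE
          have hfi : 1 ≤ f i := le_trans (Nat.mul_pos (by positivity) hVpos) hge
          rw [← vl_congr (hf4 i) hqV, ← vn_cast hfi] at hqd
          have hqd' : q ∣ vn u (f i) := by exact_mod_cast hqd
          have heq := (Nat.prime_dvd_prime_iff_eq hq hpr).1 hqd'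
          have h1 : q ≤ V := Nat.le_of_dvd hVpos hqV
          have h2 : 4 * V ≤ 2 ^ g * V := Nat.mul_le_mul_right _ hg4
          have h3 : f i ≤ vn u (f i) + 1 := vn_ge
          omega
        · intro h
          exact absurd (mem_filter.1 h).1 huE

end Pool.Agent.H536.LS
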