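import Mathlib
import Pool.Agent.H536.LS.Main

open Finset

/-! The theorem on both kinds in terms of two sets of positions, and in terms of the first prime. -/

namespace Pool.Agent.H536.LS

/-- both kinds -/
theorem both (m : ℕ) : ∃ K A T₀ : ℕ, ∀ T : ℕ, T₀ ≤ T → ∀ E₁ E₂ : Finset ℕ, E₁ ⊆ Icc 1 T → E₂ ⊆ Icc 1 T →
    K ≤ #E₁ + #E₂ → ∃ F₁ F₂ : Finset ℕ, F₁ ⊆ E₁ ∧ F₂ ⊆ E₂ ∧ m ≤ #F₁ + #F₂ ∧
    ∃ S : Finset ℕ, 2 ^ T ≤ #S ∧ ∀ n ∈ S, Odd n ∧ 2 ^ T ≤ n ∧ n ≤ 2 ^ (A * T) ∧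
      ∀ j : ℕ, j ^ 20 ≤ T ^ 21 → ((2 ^ j * n - 1).Prime ↔ j ∈ F₁) ∧ ((2 ^ j * n + 1).Prime ↔ j ∈ F₂) := by
  classical
  obtain ⟨K, A, T₀, _, h⟩ := main m
  refine ⟨K, A, T₀, fun T hT E₁ E₂ h1 h2 hK => ?_⟩
  have hi1 : Function.Injective (fun j : ℕ => (j, true)) := fun a b hab => (Prod.mk.injEq _ _ _ _ ▸ hab).1
  have hi2 : Function.Injective (fun j : ℕ => (j, false)) := fun a b hab => (Prod.mk.injEq _ _ _ _ ▸ hab).1
  have hcardE : ∀ G₁ G₂ : Finset ℕ, #(G₁.image (fun j => (j, true)) ∪ G₂.image (fun j => (j, false))) = #G₁ + #G₂ := by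
    intro G₁ G₂
    rw [card_union_of_disjoint, card_image_of_injective _ hi1, card_image_of_injective _ hi2]
    rw [disjoint_left]
    intro u hu hu'
    rw [mem_image] at hu hu'
    obtain ⟨a, _, rfl⟩ := hu
    obtain ⟨b, _, hb⟩ := hu'
    simp at hb
  obtain ⟨F, hFE, hmF, S, hS, hall⟩ := h T hT (E₁.image (fun j => (j, true)) ∪ E₂.image (fun j => (j, false))) (by
    intro e he
    rw [mem_union, mem_image, mem_image] at he
    rcases he with ⟨j, hj, rfl⟩ | ⟨j, hj, rfl⟩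
    · exact mem_Icc.1 (h1 hj)
    · exact mem_Icc.1 (h2 hj)) (by rw [hcardE]; exact hK)
  have hm1 : ∀ j, (j, true) ∈ F ↔ j ∈ E₁.filter (fun j => (j, true) ∈ F) := by
    intro j
    rw [mem_filter]
    constructor
    · intro hj
      refine ⟨?_, hj⟩
      have h3 := hFE hj
      rw [mem_union, mem_image, mem_image] at h3
      rcases h3 with ⟨a, ha, hb⟩ | ⟨a, ha, hb⟩
      · rw [Prod.mk.injEq] at hb; rw [← hb.1]; exact ha
      · simp at hb
    · exact fun hj => hj.2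
  have hm2 : ∀ j, (j, false) ∈ F ↔ j ∈ E₂.filter (fun j => (j, false) ∈ F) := by
    intro j
    rw [mem_filter]
    constructor
    · intro hj
      refine ⟨?_, hj⟩
      have h3 := hFE hj
      rw [mem_union, mem_image, mem_image] at h3
      rcases h3 with ⟨a, ha, hb⟩ | ⟨a, ha, hb⟩
      · simp at hb
      · rw [Prod.mk.injEq] at hb; rw [← hb.1]; exact ha
    · exact fun hj => hj.2
  have hFeq : F = (E₁.filter (fun j => (j, true) ∈ F)).image (fun j => (j, true)) ∪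
      (E₂.filter (fun j => (j, false) ∈ F)).image (fun j => (j, false)) := by
    ext u
    rcases u with ⟨j, b⟩
    rw [mem_union, mem_image, mem_image]
    cases b
    · constructor
      · intro hu
        exact Or.inr ⟨j, (hm2 j).1 hu, rfl⟩
      · rintro (⟨a, ha, hb⟩ | ⟨a, ha, hb⟩)
        · simp at hb
        · rw [← hb]; exact (hm2 a).2 ha
    · constructor
      · intro hu
        exact Or.inl ⟨j, (hm1 j).1 hu, rfl⟩
      · rintro (⟨a, ha, hb⟩ | ⟨a, ha, hb⟩)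
        · rw [← hb]; exact (hm1 a).2 ha
        · simp at hb
  refine ⟨E₁.filter (fun j => (j, true) ∈ F), E₂.filter (fun j => (j, false) ∈ F), filter_subset _ _,
    filter_subset _ _, ?_, S, hS, ?_⟩
  · rw [← hcardE, ← hFeq]
    exact hmF
  · intro n hn
    obtain ⟨h3, h4, h5, h6⟩ := hall n hn
    refine ⟨h4, h5, h3, fun j hj => ⟨?_, ?_⟩⟩
    · have h7 := h6 (j, true) hj
      unfold vn at h7
      simp only [if_true] at h7
      rw [h7, hm1]
    · have h7 := h6 (j, false) hj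
      unfold vn at h7
      simp only [Bool.false_eq_true, if_false] at h7
      rw [h7, hm2]

/-- exactness of a sequence in terms of its first prime, first kind -/
theorem first (m : ℕ) : ∃ K A T₀ : ℕ, ∀ T : ℕ, T₀ ≤ T → ∀ E : Finset ℕ, E ⊆ Icc 1 T → K ≤ #E →
    ∃ F : Finset ℕ, F ⊆ E ∧ m + 1 ≤ #F ∧ ∃ f ∈ F, (∀ e ∈ F, f ≤ e) ∧
    ∃ S : Finset ℕ, 2 ^ T ≤ #S ∧ ∀ p ∈ S, p.Prime ∧ 2 ^ T ≤ p ∧ p ≤ 2 ^ (A * T) ∧
      (∀ t : ℕ, (f + t) ^ 20 ≤ T ^ 21 → ((2 ^ t * (p + 1) - 1).Prime ↔ f + t ∈ F)) ∧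
      ∀ q t : ℕ, q.Prime → 1 ≤ t → 2 ^ t * (q + 1) - 1 ≠ p := by
  classical
  obtain ⟨K, A, T₀, h⟩ := both (m + 1)
  refine ⟨K, A + 1, T₀ + 1, fun T hT E hE hK => ?_⟩
  obtain ⟨F, F₂, hFE, hF₂, hmF, S, hS, hall⟩ := h T (by omega) E ∅ hE (empty_subset _) (by simpa using hK)
  have hF20 : F₂ = ∅ := subset_empty.1 hF₂
  rw [hF20, card_empty, add_zero] at hmF
  have hne : F.Nonempty := card_pos.1 (by omega)
  obtain ⟨f, hf, hmin⟩ := F.exists_min_image id hne
  have hfT : f ≤ T := (mem_Icc.1 (hE (hFE hf))).2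
  have hf1 : 1 ≤ f := (mem_Icc.1 (hE (hFE hf))).1
  have hT1 : 1 ≤ T := by omega
  have hjT : ∀ j : ℕ, j ≤ T → j ^ 20 ≤ T ^ 21 := fun j hj =>
    (Nat.pow_le_pow_left hj 20).trans (Nat.pow_le_pow_right hT1 (by norm_num))
  have hpos : ∀ (j n : ℕ), 2 ^ T ≤ n → 1 ≤ 2 ^ j * n := fun j n hn =>
    Nat.mul_pos (by positivity) (lt_of_lt_of_le (by positivity) hn)
  refine ⟨F, hFE, hmF, f, hf, fun e he => hmin e he, S.image (fun n => 2 ^ f * n - 1), ?_, ?_⟩
  · rw [card_image_of_injOn]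
    · exact hS
    · intro n hn n' hn' hnn
      have h1 := hpos f n (hall n hn).2.1
      have h2 := hpos f n' (hall n' hn').2.1
      have h3 : 2 ^ f * n = 2 ^ f * n' := by simp only at hnn; omega
      exact Nat.eq_of_mul_eq_mul_left (by positivity) h3
  · intro p hp
    rw [mem_image] at hp
    obtain ⟨n, hn, rfl⟩ := hp
    obtain ⟨hodd, hnT, hnA, hpat⟩ := hall n hn
    have h1 := hpos f n hnT
    have hp1 : 2 ^ f * n - 1 + 1 = 2 ^ f * n := by omega
    refine ⟨((hpat f (hjT f hfT)).1).2 hf, ?_, ?_, ?_, ?_⟩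
    · have h2 : 2 * n ≤ 2 ^ f * n := Nat.mul_le_mul_right n (by
        calc 2 = 2 ^ 1 := rfl
          _ ≤ 2 ^ f := Nat.pow_le_pow_right (by norm_num) hf1)
      have h3 : 1 ≤ 2 ^ T := Nat.one_le_two_pow
      omega
    · have h2 : 2 ^ f * n ≤ 2 ^ ((A + 1) * T) := by
        calc 2 ^ f * n ≤ 2 ^ T * 2 ^ (A * T) := Nat.mul_le_mul (Nat.pow_le_pow_right (by norm_num) hfT) hnA
          _ = 2 ^ ((A + 1) * T) := by rw [← pow_add]; congr 1; ring
      omega
    · intro t ht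
      rw [hp1, ← mul_assoc, ← pow_add, add_comm t f]
      exact (hpat (f + t) ht).1
    · intro q t hq ht heq
      have h2 : 2 ^ t * (q + 1) = 2 ^ f * n := by
        have : 1 ≤ 2 ^ t * (q + 1) := Nat.mul_pos (by positivity) (by omega)
        omega
      rcases Nat.lt_or_ge f t with hft | hft
      · -- `n` would be even
        have h3 : 2 ^ t = 2 ^ f * 2 ^ (t - f) := by rw [← pow_add]; congr 1; omega
        rw [h3, mul_assoc] at h2
        have h4 := Nat.eq_of_mul_eq_mul_left (by positivity) h2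
        have h5 : 2 ∣ n := by
          rw [← h4]
          exact (dvd_pow_self 2 (by omega)).mul_right _
        exact (Nat.not_even_iff_odd.2 hodd) (even_iff_two_dvd.2 h5)
      · have h3 : 2 ^ f = 2 ^ t * 2 ^ (f - t) := by rw [← pow_add]; congr 1; omega
        rw [h3, mul_assoc] at h2
        have h4 := Nat.eq_of_mul_eq_mul_left (by positivity) h2
        have h5 : q = 2 ^ (f - t) * n - 1 := by omega
        have h6 := ((hpat (f - t) (hjT _ (by omega))).1).1 (h5 ▸ hq)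
        have h7 := hmin _ h6
        simp only [id] at h7
        omega

/-- exactness of a sequence in terms of its first prime, second kind -/
theorem second (m : ℕ) : ∃ K A T₀ : ℕ, ∀ T : ℕ, T₀ ≤ T → ∀ E : Finset ℕ, E ⊆ Icc 1 T → K ≤ #E →
    ∃ F : Finset ℕ, F ⊆ E ∧ m + 1 ≤ #F ∧ ∃ f ∈ F, (∀ e ∈ F, f ≤ e) ∧
    ∃ S : Finset ℕ, 2 ^ T ≤ #S ∧ ∀ p ∈ S, p.Prime ∧ 2 ^ T ≤ p ∧ p ≤ 2 ^ (A * T) ∧
      (∀ t : ℕ, (f + t) ^ 20 ≤ T ^ 21 → ((2 ^ t * (p - 1) + 1).Prime ↔ f + t ∈ F)) ∧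
      ∀ q t : ℕ, q.Prime → 1 ≤ t → 2 ^ t * (q - 1) + 1 ≠ p := by
  classical
  obtain ⟨K, A, T₀, h⟩ := both (m + 1)
  refine ⟨K, A + 2, T₀ + 1, fun T hT E hE hK => ?_⟩
  obtain ⟨F₁, F, hF₁, hFE, hmF, S, hS, hall⟩ := h T (by omega) ∅ E (empty_subset _) hE (by simpa using hK)
  have hF10 : F₁ = ∅ := subset_empty.1 hF₁
  rw [hF10, card_empty, zero_add] at hmF
  have hne : F.Nonempty := card_pos.1 (by omega)
  obtain ⟨f, hf, hmin⟩ := F.exists_min_image id hne
  have hfT : f ≤ T := (mem_Icc.1 (hE (hFE hf))).2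
  have hf1 : 1 ≤ f := (mem_Icc.1 (hE (hFE hf))).1
  have hT1 : 1 ≤ T := by omega
  have hjT : ∀ j : ℕ, j ≤ T → j ^ 20 ≤ T ^ 21 := fun j hj =>
    (Nat.pow_le_pow_left hj 20).trans (Nat.pow_le_pow_right hT1 (by norm_num))
  refine ⟨F, hFE, hmF, f, hf, fun e he => hmin e he, S.image (fun n => 2 ^ f * n + 1), ?_, ?_⟩
  · rw [card_image_of_injOn]
    · exact hS
    · intro n hn n' hn' hnn
      have h3 : 2 ^ f * n = 2 ^ f * n' := by simp only at hnn; omega
      exact Nat.eq_of_mul_eq_mul_left (by positivity) h3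
  · intro p hp
    rw [mem_image] at hp
    obtain ⟨n, hn, rfl⟩ := hp
    obtain ⟨hodd, hnT, hnA, hpat⟩ := hall n hn
    have hp1 : 2 ^ f * n + 1 - 1 = 2 ^ f * n := by omega
    refine ⟨((hpat f (hjT f hfT)).2).2 hf, ?_, ?_, ?_, ?_⟩
    · have h2 : n ≤ 2 ^ f * n := Nat.le_mul_of_pos_left _ (by positivity)
      omega
    · have h2 : 2 ^ f * n ≤ 2 ^ ((A + 1) * T) := by
        calc 2 ^ f * n ≤ 2 ^ T * 2 ^ (A * T) := Nat.mul_le_mul (Nat.pow_le_pow_right (by norm_num) hfT) hnA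
          _ = 2 ^ ((A + 1) * T) := by rw [← pow_add]; congr 1; ring
      have h3 : 2 ^ ((A + 1) * T) + 1 ≤ 2 ^ ((A + 2) * T) := by
        have h4 : 2 ^ ((A + 2) * T) = 2 ^ ((A + 1) * T) * 2 ^ T := by rw [← pow_add]; congr 1; ring
        have h5 : 2 ≤ 2 ^ T := by
          calc 2 = 2 ^ 1 := rfl
            _ ≤ 2 ^ T := Nat.pow_le_pow_right (by norm_num) hT1
        have h6 : 1 ≤ 2 ^ ((A + 1) * T) := Nat.one_le_two_pow
        rw [h4]
        nlinarith
      omega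
    · intro t ht
      rw [hp1, ← mul_assoc, ← pow_add, add_comm t f]
      exact (hpat (f + t) ht).2
    · intro q t hq ht heq
      have h2 : 2 ^ t * (q - 1) = 2 ^ f * n := by omega
      rcases Nat.lt_or_ge f t with hft | hft
      · have h3 : 2 ^ t = 2 ^ f * 2 ^ (t - f) := by rw [← pow_add]; congr 1; omega
        rw [h3, mul_assoc] at h2
        have h4 := Nat.eq_of_mul_eq_mul_left (by positivity) h2
        have h5 : 2 ∣ n := by
          rw [← h4]
          exact (dvd_pow_self 2 (by omega)).mul_right _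
        exact (Nat.not_even_iff_odd.2 hodd) (even_iff_two_dvd.2 h5)
      · have h3 : 2 ^ f = 2 ^ t * 2 ^ (f - t) := by rw [← pow_add]; congr 1; omega
        rw [h3, mul_assoc] at h2
        have h4 := Nat.eq_of_mul_eq_mul_left (by positivity) h2
        have hq2 := hq.two_le
        have h5 : q = 2 ^ (f - t) * n + 1 := by omega
        have h6 := ((hpat (f - t) (hjT _ (by omega))).2).1 (h5 ▸ hq)
        have h7 := hmin _ h6
        simp only [id] at h7
        omega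

end Pool.Agent.H536.LS
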